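import Mathlib

set_option autoImplicit false

/-!
# Uniform cyclic morphisms and squares

A letter is a natural number modulo 3. A uniform cyclic morphism of length `L` is given by a block
`g 0, ..., g (L-1)`; the image of the letter `a` is `g t + a (mod 3)`, `t < L`.
-/

namespace Pool.Agent.P8H42.Decim

/-- `true` iff `P i` holds for all `i < n`. -/
def allB (P : ℕ → Bool) : ℕ → Bool
  | 0 => true
  | (n + 1) => match P n with
    | true => allB P n
    | false => false

theorem allB_spec {P : ℕ → Bool} {n : ℕ} (h : allB P n = true) : ∀ i, i < n → P i = true := by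
  induction n with
  | zero => intro i hi; omega
  | succ n ih =>
    intro i hi
    rw [allB] at h
    cases hP : P n with
    | false => rw [hP] at h; simp at h
    | true =>
      rw [hP] at h
      rcases Nat.lt_succ_iff_lt_or_eq.1 hi with h1 | h1
      · exact ih h i h1
      · rw [h1]; exact hP

/-- `true` iff the functions differ at some `t < n`. -/
def mism (f h : ℕ → ℕ) : ℕ → Bool
  | 0 => false
  | (n + 1) => match Nat.beq (f n) (h n) with
    | true => mism f h n
    | false => true

theorem mism_spec {f h : ℕ → ℕ} {n : ℕ} (hm : mism f h n = true) : ∃ t, t < n ∧ f t ≠ h t := by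
  induction n with
  | zero => simp [mism] at hm
  | succ n ih =>
    rw [mism] at hm
    cases hb : Nat.beq (f n) (h n) with
    | false =>
      refine ⟨n, Nat.lt_succ_self n, fun he => ?_⟩
      rw [he] at hb
      simp at hb
    | true =>
      rw [hb] at hm
      obtain ⟨t, ht, h1⟩ := ih hm
      exact ⟨t, by omega, h1⟩

/-- The letter at position `z < 2 L` of the image of the word `a b`. -/
def G (L : ℕ) (g : ℕ → ℕ) (a b z : ℕ) : ℕ :=
  match Nat.blt z L with
  | true => (g z + a) % 3
  | false => (g (z - L) + b) % 3

theorem G_lt {L : ℕ} {g : ℕ → ℕ} {a b z : ℕ} (h : z < L) : G L g a b z = (g z + a) % 3 := by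
  have : Nat.blt z L = true := by simpa [Nat.blt] using h
  rw [G, this]

theorem G_ge {L : ℕ} {g : ℕ → ℕ} {a b z : ℕ} (h : L ≤ z) :
    G L g a b z = (g (z - L) + b) % 3 := by
  have : Nat.blt z L = false := by
    rw [Bool.eq_false_iff]
    intro h2
    have : z < L := by simpa [Nat.blt] using h2
    omega
  rw [G, this]

/-- Factors of length `s` in different residue classes modulo `L` differ. -/
def uniq (L s : ℕ) (g : ℕ → ℕ) : Bool :=
  allB (fun r => allB (fun r' => match Nat.beq r r' with
    | true => true
    | false => allB (fun b => allB (fun a' => allB (fun c =>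
        mism (fun t => G L g 0 (b + 1) (r + t)) (fun t => G L g a' (a' + c + 1) (r' + t)) s)
        2) 3) 2) L) L

/-- There is no square of period less than `s` in the image of a word of two different letters. -/
def short (L s : ℕ) (g : ℕ → ℕ) : Bool :=
  allB (fun r => allB (fun p => allB (fun b =>
    mism (fun t => G L g 0 (b + 1) (r + t)) (fun t => G L g 0 (b + 1) (r + (p + 1) + t)) (p + 1))
      2) (s - 1)) L

/-- The digit `t` in base `4`. -/
def digit (C t : ℕ) : ℕ := Nat.shiftRight C (2 * t) % 4

end Pool.Agent.P8H42.Decim
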