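import Pool.Agent.P8H42.Decim

set_option autoImplicit false
set_option maxRecDepth 100000

/-!
# The block of the morphism and its finite checks
-/

namespace Pool.Agent.P8H42.Decim

/-- The block of length `175`, in base `4`. -/
def C1 : ℕ := 225134556824906045509891006129194124447053048500883861686269519145127388194268961848642741889619323295844

/-- Every fifth letter of the block. -/
def C5 : ℕ := 175570093768043947160

/-- Every seventh letter of the block. -/
def C7 : ℕ := 167556893926552

theorem uniq1 : uniq 175 28 (digit C1) = true := by decide +kernel
theorem short1 : short 175 28 (digit C1) = true := by decide +kernel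
theorem uniq5 : uniq 35 18 (digit C5) = true := by decide +kernel
theorem short5 : short 35 18 (digit C5) = true := by decide +kernel
theorem uniq7 : uniq 25 13 (digit C7) = true := by decide +kernel
theorem short7 : short 25 13 (digit C7) = true := by decide +kernel

theorem dec5 : ∀ s, s < 35 → digit C5 s = digit C1 (5 * s) := by decide +kernel

theorem dec7 : ∀ s, s < 25 → digit C7 s = digit C1 (7 * s) := by decide +kernel

theorem digit_zero : digit C1 0 = 0 := by decide +kernel

theorem digit_lt (C t : ℕ) : digit C t < 4 := Nat.mod_lt _ (by norm_num)

end Pool.Agent.P8H42.Decim
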