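import Pool.Agent.P8H42.Decim

set_option autoImplicit false

/-!
# Uniform cyclic morphisms and squares: the lifting lemma
-/

namespace Pool.Agent.P8H42.Decim

/-- No factor of `x 0, ..., x (M - 1)` is a square. -/
def SF (x : ℕ → ℕ) (M : ℕ) : Prop :=
  ∀ i p, 0 < p → i + 2 * p ≤ M → ∃ t, t < p ∧ x (i + t) ≠ x (i + p + t)

theorem uniq_spec {L s : ℕ} {g : ℕ → ℕ} (hu : uniq L s g = true) {r r' : ℕ} (hr : r < L)
    (hr' : r' < L) (hne : r ≠ r') {b a' c : ℕ} (hb : b < 2) (ha' : a' < 3) (hc : c < 2) :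
    ∃ t, t < s ∧ G L g 0 (b + 1) (r + t) ≠ G L g a' (a' + c + 1) (r' + t) := by
  have h1 := allB_spec (allB_spec hu r hr) r' hr'
  have h2 : Nat.beq r r' = false := by
    rw [Bool.eq_false_iff]
    intro h
    exact hne (Nat.eq_of_beq_eq_true h)
  simp only [h2] at h1
  exact mism_spec (allB_spec (allB_spec (allB_spec h1 b hb) a' ha') c hc)

theorem short_spec {L s : ℕ} {g : ℕ → ℕ} (hu : short L s g = true) {r p b : ℕ} (hr : r < L)
    (hp : p < s - 1) (hb : b < 2) :
    ∃ t, t < p + 1 ∧ G L g 0 (b + 1) (r + t) ≠ G L g 0 (b + 1) (r + (p + 1) + t) :=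
  mism_spec (allB_spec (allB_spec (allB_spec hu r hr) p hp) b hb)

/-- The letters of the image as values of `G`. -/
theorem block {L : ℕ} {g w x : ℕ → ℕ}
    (hx : ∀ n t, t < L → x (L * n + t) = (g t + w n) % 3) {q r z b : ℕ} (hz : r + z < 2 * L)
    (hb : L ≤ r + z → b = w (q + 1)) : x (L * q + r + z) = G L g (w q) b (r + z) := by
  rcases Nat.lt_or_ge (r + z) L with h | h
  · rw [G_lt h, add_assoc, hx q (r + z) h]
  · rw [G_ge h, hb h]
    have e : L * q + r + z = L * (q + 1) + (r + z - L) := by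
      rw [Nat.mul_add, Nat.mul_one]; omega
    rw [e, hx (q + 1) (r + z - L) (by omega)]

theorem shift {L : ℕ} {g : ℕ → ℕ} {a b a' b' z z' b0 a1 c : ℕ} (ha : a < 3)
    (h1 : b % 3 = (b0 + 1 + a) % 3) (h2 : a' % 3 = (a1 + a) % 3)
    (h3 : b' % 3 = (a1 + c + 1 + a) % 3) (h : G L g a b z = G L g a' b' z') :
    G L g 0 (b0 + 1) z = G L g a1 (a1 + c + 1) z' := by
  rcases Nat.lt_or_ge z L with h4 | h4 <;> rcases Nat.lt_or_ge z' L with h5 | h5
  · rw [G_lt h4, G_lt h5] at *; omega
  · rw [G_lt h4, G_ge h5] at *; omega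
  · rw [G_ge h4, G_lt h5] at *; omega
  · rw [G_ge h4, G_ge h5] at *; omega

theorem shift0 {L : ℕ} {g : ℕ → ℕ} {a b z z' b0 : ℕ} (ha : a < 3)
    (h1 : b % 3 = (b0 + 1 + a) % 3) (h : G L g a b z = G L g a b z') :
    G L g 0 (b0 + 1) z = G L g 0 (b0 + 1) z' := by
  rcases Nat.lt_or_ge z L with h4 | h4 <;> rcases Nat.lt_or_ge z' L with h5 | h5
  · rw [G_lt h4, G_lt h5] at *; omega
  · rw [G_lt h4, G_ge h5] at *; omega
  · rw [G_ge h4, G_lt h5] at *; omega
  · rw [G_ge h4, G_ge h5] at *; omega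

/-- **Lifting lemma.** If `x` is the image of `w` and `w` has no squares up to `M`, then `x` has no
squares up to `L M`. -/
theorem lift {L s : ℕ} {g w x : ℕ → ℕ} (hs : 2 * s ≤ L + 3) (hs0 : 0 < s) (hsL : s ≤ L)
    (hu : uniq L s g = true) (hsh : short L s g = true) (hw : ∀ n, w n < 3)
    (hx : ∀ n t, t < L → x (L * n + t) = (g t + w n) % 3) {M : ℕ} (h : SF w M) :
    SF x (L * M) := by
  intro i p hp hip
  by_contra hcon
  push Not at hcon
  have hL : 0 < L := by omega
  obtain ⟨q, r, hr, rfl⟩ : ∃ q r, r < L ∧ i = L * q + r :=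
    ⟨i / L, i % L, Nat.mod_lt _ hL, (Nat.div_add_mod i L).symm⟩
  -- consecutive letters of `w` differ
  have hstep : ∀ n k, L * n + k ≤ L * M → L < k → w n ≠ w (n + 1) := by
    intro n k hk hLk
    have h1 : n + 2 * 1 ≤ M := by
      by_contra h2
      have h3 : M ≤ n + 1 := by omega
      have h4 : L * M ≤ L * (n + 1) := Nat.mul_le_mul_left L h3
      rw [Nat.mul_add, Nat.mul_one] at h4
      omega
    obtain ⟨t, ht, h2⟩ := h n 1 one_pos h1
    have : t = 0 := by omega
    subst this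
    simpa using h2
  by_cases hmod : p % L = 0
  · obtain ⟨m, rfl⟩ : ∃ m, p = L * m := ⟨p / L, (Nat.mul_div_cancel' (Nat.dvd_of_mod_eq_zero hmod)).symm⟩
    have hm : 0 < m := Nat.pos_of_mul_pos_left hp |> fun _ => by
      rcases Nat.eq_zero_or_pos m with h0 | h0
      · subst h0; simp at hp
      · exact h0
    have h1 : q + 2 * m ≤ M := by
      have h2 : L * (q + 2 * m) ≤ L * M := by
        have : L * (q + 2 * m) = L * q + 2 * (L * m) := by ring
        omega
      exact Nat.le_of_mul_le_mul_left h2 hL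
    obtain ⟨j, hj, h2⟩ := h q m hm h1
    have h3 := hcon (L * j) ((Nat.mul_lt_mul_left hL).2 hj)
    have e1 : L * q + r + L * j = L * (q + j) + r := by ring
    have e2 : L * q + r + L * m + L * j = L * (q + m + j) + r := by ring
    rw [e1, e2, hx _ _ hr, hx _ _ hr] at h3
    have h4 := hw (q + j)
    have h5 := hw (q + m + j)
    omega
  · have hlt := hw q
    rcases Nat.lt_or_ge p s with hps | hps
    · -- short squares
      obtain ⟨b, hb1, hb2, hb3⟩ : ∃ b, b < 2 ∧ ∃ b', b' % 3 = (b + 1 + w q) % 3 ∧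
          ∀ z, z < 2 * p → L ≤ r + z → b' = w (q + 1) := by
        by_cases hc : r + 2 * p ≤ L
        · exact ⟨0, by omega, w q + 1, by omega, fun z hz hz2 => by omega⟩
        · have h1 := hstep q (r + 2 * p) (by omega) (by omega)
          have h2 := hw (q + 1)
          refine ⟨(w (q + 1) + 3 - w q - 1) % 3, by omega, w (q + 1), by omega, fun _ _ _ => rfl⟩
      obtain ⟨hb2, hb3⟩ := hb3
      obtain ⟨p', rfl⟩ : ∃ p', p = p' + 1 := ⟨p - 1, by omega⟩
      obtain ⟨t, ht, h1⟩ := short_spec hsh hr (by omega : p' < s - 1) hb1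
      apply h1
      apply shift0 hlt hb2
      rw [← block hx (q := q) (r := r) (z := t) (by omega) (hb3 t (by omega))]
      have e : r + (p' + 1) + t = r + (p' + 1 + t) := by ring
      rw [e, ← block hx (q := q) (r := r) (z := p' + 1 + t) (by omega) (hb3 (p' + 1 + t) (by omega))]
      rw [hcon t ht]
      congr 1
      ring
    · -- long squares
      obtain ⟨q', r', hr', e'⟩ : ∃ q' r', r' < L ∧ L * q + r + p = L * q' + r' :=
        ⟨(L * q + r + p) / L, (L * q + r + p) % L, Nat.mod_lt _ hL, (Nat.div_add_mod _ L).symm⟩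
      have hne : r ≠ r' := by
        rintro rfl
        apply hmod
        have h1 : L * q + p = L * q' := by omega
        have h2 : p = L * q' - L * q := by omega
        rw [h2, ← Nat.mul_sub]
        exact Nat.mul_mod_right _ _
      have hlt' := hw q'
      obtain ⟨b, hb1, b', hb2, hb3⟩ : ∃ b, b < 2 ∧ ∃ b', b' % 3 = (b + 1 + w q) % 3 ∧
          ∀ z, z < s → L ≤ r + z → b' = w (q + 1) := by
        by_cases hc : r + s ≤ L
        · exact ⟨0, by omega, w q + 1, by omega, fun z hz hz2 => by omega⟩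
        · have h1 := hstep q (r + s) (by omega) (by omega)
          have h2 := hw (q + 1)
          refine ⟨(w (q + 1) + 3 - w q - 1) % 3, by omega, w (q + 1), by omega, fun _ _ _ => rfl⟩
      obtain ⟨c, hc1, c', hc2, hc3⟩ : ∃ c, c < 2 ∧ ∃ c', c' % 3 = (c + 1 + w q') % 3 ∧
          ∀ z, z < s → L ≤ r' + z → c' = w (q' + 1) := by
        by_cases hc : r' + s ≤ L
        · exact ⟨0, by omega, w q' + 1, by omega, fun z hz hz2 => by omega⟩
        · have h1 := hstep q' (r' + s) (by omega) (by omega)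
          have h2 := hw (q' + 1)
          refine ⟨(w (q' + 1) + 3 - w q' - 1) % 3, by omega, w (q' + 1), by omega, fun _ _ _ => rfl⟩
      obtain ⟨t, ht, h1⟩ := uniq_spec hu hr hr' hne hb1
        (by omega : (w q' + 3 - w q) % 3 < 3) hc1
      apply h1
      apply shift (a := w q) (b := b') (a' := w q') (b' := c') hlt hb2 (by omega) (by omega)
      rw [← block hx (q := q) (r := r) (z := t) (by omega) (hb3 t ht),
        ← block hx (q := q') (r := r') (z := t) (by omega) (hc3 t ht), ← e']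
      exact hcon t (by omega)

end Pool.Agent.P8H42.Decim
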