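import Mathlib

/-!
# Few primes are bad for a large subset of a progression

`cl C p a` is the set of elements of `C` in the class `a` modulo `p`, `low C p` the set of the
residues `a` modulo `p` such that `cl C p a` has at most `(31 / 32) |C| / p` elements, and `p` is
bad for `C` if `low C p` has at least `p / 32` elements. If `C` lies in one residue class modulo `d`
and is contained in `[0, X)`, then the number `m` of bad primes (with `d` times their product at
most `X`) satisfies `exp (m / 2 ^ 19) |C| d ≤ 2 X`.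
-/

set_option autoImplicit false

namespace Pool.Agent.P8H42.NS

open Finset

/-- elements of `C` in the residue class `a` modulo `p` -/
def cl (C : Finset ℕ) (p a : ℕ) : Finset ℕ := C.filter (fun x => x % p = a)

open Classical in
/-- sparse residue classes -/
noncomputable def low (C : Finset ℕ) (p : ℕ) : Finset ℕ :=
  (range p).filter (fun a => ((cl C p a).card : ℝ) * p ≤ (31 / 32) * C.card)

/-- many residue classes modulo `p` are sparse in `C` -/
def Bad (C : Finset ℕ) (p : ℕ) : Prop := (p : ℝ) ≤ 32 * (low C p).card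

lemma log_lower {u : ℝ} (h1 : u ≤ 1 / 2) : -u - 2 * u ^ 2 ≤ Real.log (1 - u) := by
  have h0 : 0 < 1 - u := by linarith
  refine le_trans ?_ (Real.one_sub_inv_le_log_of_pos h0)
  rw [← one_div, le_sub_iff_add_le, ← le_sub_iff_add_le', div_le_iff₀ h0]
  nlinarith [mul_nonneg (sq_nonneg u) (show (0 : ℝ) ≤ 1 - 2 * u by linarith)]

/-- the weights -/
noncomputable def w (C : Finset ℕ) (p a : ℕ) : ℝ :=
  1 - (1 / 256) * ((if a ∈ low C p then 1 else 0) - ((low C p).card : ℝ) / p)

lemma low_card_le (C : Finset ℕ) (p : ℕ) : (low C p).card ≤ p := by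
  classical
  unfold low
  refine (card_le_card (filter_subset _ _)).trans ?_
  rw [card_range]

lemma z_mem (C : Finset ℕ) {p : ℕ} (hp : 0 < p) :
    0 ≤ ((low C p).card : ℝ) / p ∧ ((low C p).card : ℝ) / p ≤ 1 := by
  have h0 : (0 : ℝ) < p := by exact_mod_cast hp
  refine ⟨by positivity, ?_⟩
  rw [div_le_one h0]
  exact_mod_cast low_card_le C p

lemma w_pos (C : Finset ℕ) {p : ℕ} (hp : 0 < p) (a : ℕ) : 0 < w C p a := by
  have h := z_mem C hp
  unfold w
  split_ifs <;> linarith [h.1, h.2]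

lemma w_sum (C : Finset ℕ) {p : ℕ} (hp : 0 < p) : ∑ a ∈ range p, w C p a = p := by
  classical
  have h0 : (0 : ℝ) < p := by exact_mod_cast hp
  unfold w
  rw [Finset.sum_sub_distrib, ← Finset.mul_sum, Finset.sum_sub_distrib]
  have h1 : ∑ a ∈ range p, (if a ∈ low C p then (1 : ℝ) else 0) = (low C p).card := by
    rw [← Finset.sum_filter, Finset.sum_const, nsmul_eq_mul, mul_one]
    congr 2
    ext a
    simp only [mem_filter, mem_range]
    constructor
    · exact fun h => h.2
    · intro h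
      have h' := h
      unfold low at h'
      rw [mem_filter, mem_range] at h'
      exact ⟨h'.1, h⟩
  rw [h1]
  simp only [Finset.sum_const, card_range, nsmul_eq_mul, mul_one]
  field_simp
  ring

/-- log weights on a bad prime -/
lemma log_sum (C : Finset ℕ) {p : ℕ} (hp : 0 < p) (hb : Bad C p) :
    (C.card : ℝ) / 2 ^ 19 ≤ ∑ x ∈ C, Real.log (w C p (x % p)) := by
  classical
  have h0 : (0 : ℝ) < p := by exact_mod_cast hp
  have hz := z_mem C hp
  obtain ⟨z, hzd⟩ : ∃ z : ℝ, z = ((low C p).card : ℝ) / p := ⟨_, rfl⟩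
  rw [← hzd] at hz
  have hz32 : 1 / 32 ≤ z := by
    rw [hzd, le_div_iff₀ h0]
    unfold Bad at hb
    linarith
  obtain ⟨s, hs⟩ : ∃ s : ℝ, s = ∑ x ∈ C, (if x % p ∈ low C p then (1 : ℝ) else 0) := ⟨_, rfl⟩
  have hs1 : s ≤ (31 / 32) * z * C.card := by
    have e1 : s = ∑ a ∈ low C p, ((cl C p a).card : ℝ) := by
      rw [hs, ← Finset.sum_filter, Finset.sum_const, nsmul_eq_mul, mul_one]
      rw [← Nat.cast_sum]
      congr 1
      rw [Finset.card_eq_sum_card_fiberwise (f := fun x => x % p) (t := low C p)]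
      · refine Finset.sum_congr rfl fun a ha => ?_
        congr 1
        unfold cl
        ext x
        simp only [mem_filter]
        constructor
        · rintro ⟨⟨h1, _⟩, h3⟩
          exact ⟨h1, h3⟩
        · rintro ⟨h1, h3⟩
          exact ⟨⟨h1, by rw [h3]; exact ha⟩, h3⟩
      · intro x hx
        simp only [coe_filter, Set.mem_ofPred_eq] at hx
        exact hx.2
    rw [e1]
    have e2 : ∀ a ∈ low C p, ((cl C p a).card : ℝ) ≤ (31 / 32) * C.card / p := by
      intro a ha
      unfold low at ha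
      rw [mem_filter] at ha
      rw [le_div_iff₀ h0]
      exact ha.2
    refine (Finset.sum_le_sum e2).trans ?_
    rw [Finset.sum_const, nsmul_eq_mul, hzd]
    apply le_of_eq
    field_simp
  have hterm : ∀ x ∈ C, -((1 / 256 : ℝ) + 2 / 256 ^ 2) * (if x % p ∈ low C p then (1 : ℝ) else 0)
      + (1 / 256 - 2 / 256 ^ 2) * z ≤ Real.log (w C p (x % p)) := by
    intro x _
    unfold w
    rw [← hzd]
    obtain ⟨u, hu⟩ : ∃ u : ℝ, u = (1 / 256) * ((if x % p ∈ low C p then (1 : ℝ) else 0) - z) :=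
      ⟨_, rfl⟩
    rw [← hu]
    have hu1 : u ≤ 1 / 2 := by
      rw [hu]
      split_ifs <;> linarith [hz.1, hz.2]
    refine le_trans ?_ (log_lower hu1)
    rw [hu]
    split_ifs
    · nlinarith [hz.1, hz.2]
    · nlinarith [hz.1, hz.2]
  refine le_trans ?_ (Finset.sum_le_sum hterm)
  rw [Finset.sum_add_distrib, ← Finset.mul_sum, ← hs, Finset.sum_const, nsmul_eq_mul]
  have hC0 : (0 : ℝ) ≤ C.card := by positivity
  have hzC : (1 / 32) * (C.card : ℝ) ≤ z * C.card := mul_le_mul_of_nonneg_right hz32 hC0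
  nlinarith

theorem few_bad (X d c : ℕ) (hd : 0 < d) (C : Finset ℕ) (hC : ∀ x ∈ C, x < X ∧ x % d = c)
    (Ps : Finset ℕ) (hp : ∀ p ∈ Ps, p.Prime) (hcop : ∀ p ∈ Ps, ¬ p ∣ d)
    (hprod : d * ∏ p ∈ Ps, p ≤ X) (hbad : ∀ p ∈ Ps, Bad C p) :
    Real.exp ((Ps.card : ℝ) / 2 ^ 19) * C.card * d ≤ 2 * X := by
  classical
  obtain ⟨D, hD⟩ : ∃ D, D = d * ∏ p ∈ Ps, p := ⟨_, rfl⟩
  have hP0 : 0 < ∏ p ∈ Ps, p := Finset.prod_pos fun p h => (hp p h).pos
  have hD0 : 0 < D := by rw [hD]; exact Nat.mul_pos hd hP0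
  have hwn : ∀ (p : Ps) (a : ℕ), 0 ≤ w C (p : ℕ) a := fun p a => (w_pos C (hp p.1 p.2).pos a).le
  -- upper bound
  have hup : ∑ x ∈ C, ∏ p ∈ Ps, w C p (x % p) ≤ ((X / D + 1 : ℕ) : ℝ) * ((∏ p ∈ Ps, p : ℕ) : ℝ) := by
    let φ : ℕ → ℕ × (Ps → ℕ) := fun x => (x / D, fun p => x % (p : ℕ))
    let T : Finset (ℕ × (Ps → ℕ)) := (range (X / D + 1)) ×ˢ Fintype.piFinset (fun p : Ps => range (p : ℕ))
    let g : ℕ × (Ps → ℕ) → ℝ := fun y => ∏ p : Ps, w C (p : ℕ) (y.2 p)
    have hinj : Set.InjOn φ C := by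
      intro x hx y hy hxy
      have hx' := hC x hx
      have hy' := hC y hy
      have h1 : x / D = y / D := congrArg Prod.fst hxy
      have h2 : ∀ p ∈ Ps, x % p = y % p := fun p hpp => congrFun (congrArg Prod.snd hxy) ⟨p, hpp⟩
      have h3 : D ∣ ((x : ℤ) - y).natAbs := by
        rw [hD]
        apply Nat.Coprime.mul_dvd_of_dvd_of_dvd
        · refine Nat.Coprime.prod_right fun p hpp => ?_
          exact ((Nat.Prime.coprime_iff_not_dvd (hp p hpp)).2 (hcop p hpp)).symm
        · rw [← Int.natCast_dvd, ← Int.modEq_iff_dvd]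
          exact_mod_cast (show y % d = x % d by rw [hx'.2, hy'.2])
        · apply Finset.prod_primes_dvd _ (fun p hpp => (hp p hpp).prime)
          intro p hpp
          rw [← Int.natCast_dvd, ← Int.modEq_iff_dvd]
          exact_mod_cast (h2 p hpp).symm
      rw [← Int.natCast_dvd, ← Int.modEq_iff_dvd] at h3
      have h4 : y % D = x % D := by exact_mod_cast h3
      rw [← Nat.div_add_mod x D, ← Nat.div_add_mod y D, h1, h4]
    have hmaps : C.image φ ⊆ T := by
      intro y hy
      rw [mem_image] at hy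
      obtain ⟨x, hx, rfl⟩ := hy
      rw [mem_product, mem_range, Fintype.mem_piFinset]
      refine ⟨?_, fun p => ?_⟩
      · exact Nat.lt_succ_of_le (Nat.div_le_div_right (hC x hx).1.le)
      · rw [mem_range]
        exact Nat.mod_lt _ (hp p.1 p.2).pos
    have e1 : ∑ x ∈ C, ∏ p ∈ Ps, w C p (x % p) = ∑ y ∈ C.image φ, g y := by
      rw [Finset.sum_image hinj]
      refine Finset.sum_congr rfl fun x _ => ?_
      exact (Finset.prod_coe_sort Ps (fun p => w C p (x % p))).symm
    rw [e1]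
    refine (Finset.sum_le_sum_of_subset_of_nonneg hmaps
      (fun y _ _ => Finset.prod_nonneg fun p _ => hwn p _)).trans ?_
    rw [Finset.sum_product]
    have e2 : ∀ x ∈ range (X / D + 1), ∑ y ∈ Fintype.piFinset (fun p : Ps => range (p : ℕ)), g (x, y)
        = ((∏ p ∈ Ps, p : ℕ) : ℝ) := by
      intro x _
      have := Finset.prod_univ_sum (fun p : Ps => range (p : ℕ)) (fun p a => w C (p : ℕ) a)
      rw [← this]
      rw [Nat.cast_prod, ← Finset.prod_coe_sort Ps (fun p => (p : ℝ))]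
      refine Finset.prod_congr rfl fun p _ => ?_
      exact w_sum C (hp p.1 p.2).pos
    rw [Finset.sum_congr rfl e2, Finset.sum_const, card_range, nsmul_eq_mul]
  -- lower bound
  have hlow : Real.exp ((Ps.card : ℝ) / 2 ^ 19) * C.card ≤ ∑ x ∈ C, ∏ p ∈ Ps, w C p (x % p) := by
    obtain ⟨G, hG⟩ : ∃ G : ℕ → ℝ, G = fun x => ∑ p ∈ Ps, Real.log (w C p (x % p)) := ⟨_, rfl⟩
    obtain ⟨q, hq⟩ : ∃ q : ℝ, q = (Ps.card : ℝ) / 2 ^ 19 := ⟨_, rfl⟩
    have h1 : ∀ x ∈ C, Real.exp q * (1 + (G x - q)) ≤ ∏ p ∈ Ps, w C p (x % p) := by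
      intro x _
      have e1 : ∏ p ∈ Ps, w C p (x % p) = Real.exp (G x) := by
        rw [hG, Real.exp_sum]
        refine Finset.prod_congr rfl fun p hpp => ?_
        rw [Real.exp_log (w_pos C (hp p hpp).pos _)]
      rw [e1]
      have e2 : Real.exp (G x) = Real.exp q * Real.exp (G x - q) := by
        rw [← Real.exp_add]; congr 1; ring
      rw [e2]
      refine mul_le_mul_of_nonneg_left ?_ (Real.exp_pos _).le
      linarith [Real.add_one_le_exp (G x - q)]
    have h2 : (C.card : ℝ) * q ≤ ∑ x ∈ C, G x := by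
      rw [hG]
      rw [Finset.sum_comm]
      have : ∑ p ∈ Ps, (C.card : ℝ) / 2 ^ 19 ≤ ∑ p ∈ Ps, ∑ x ∈ C, Real.log (w C p (x % p)) :=
        Finset.sum_le_sum fun p hpp => log_sum C (hp p hpp).pos (hbad p hpp)
      rw [Finset.sum_const, nsmul_eq_mul] at this
      rw [hq]
      linarith [this, show (C.card : ℝ) * ((Ps.card : ℝ) / 2 ^ 19) = (Ps.card : ℝ) * ((C.card : ℝ) / 2 ^ 19) by ring]
    rw [← hq]
    refine le_trans ?_ (Finset.sum_le_sum h1)
    rw [← Finset.mul_sum, Finset.sum_add_distrib, Finset.sum_sub_distrib, Finset.sum_const,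
      Finset.sum_const, nsmul_eq_mul, nsmul_eq_mul, mul_one]
    refine mul_le_mul_of_nonneg_left ?_ (Real.exp_pos _).le
    linarith
  have hdR : (0 : ℝ) < d := by exact_mod_cast hd
  have h5 := mul_le_mul_of_nonneg_right (hlow.trans hup) hdR.le
  refine h5.trans ?_
  have h6 : (X / D + 1) * (∏ p ∈ Ps, p) * d ≤ 2 * X := by
    have : (X / D + 1) * (∏ p ∈ Ps, p) * d = (X / D) * D + D := by rw [hD]; ring
    rw [this]
    have := Nat.div_mul_le_self X D
    rw [← hD] at hprod
    omega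
  exact_mod_cast h6

end Pool.Agent.P8H42.NS
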