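import Pool.Agent.P8H42.NS1

/-!
# Roots of `x ^ 2 + y ^ 2 = 0` modulo a product of primes, and pairs in good classes
-/

set_option autoImplicit false

namespace Pool.Agent.P8H42.NS

open Finset

/-- the residues `c` modulo `d` with `d ∣ c² + e²` -/
def roots (d e : ℕ) : Finset ℕ := (range d).filter (fun c => d ∣ c ^ 2 + e ^ 2)

lemma roots_prime {p : ℕ} (hp : p.Prime) (e : ℕ) : (roots p e).card ≤ 2 := by
  classical
  rcases (roots p e).eq_empty_or_nonempty with h | ⟨c, hc⟩
  · rw [h]; simp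
  · have hsub : roots p e ⊆ {c, (p - c) % p} := by
      intro x hx
      unfold roots at hc hx
      rw [mem_filter, mem_range] at hc hx
      have hp' := Nat.prime_iff_prime_int.1 hp
      have h1 : (p : ℤ) ∣ (x - c) * (x + c) := by
        have a1 : (p : ℤ) ∣ (x : ℤ) ^ 2 + (e : ℤ) ^ 2 := by exact_mod_cast hx.2
        have a2 : (p : ℤ) ∣ (c : ℤ) ^ 2 + (e : ℤ) ^ 2 := by exact_mod_cast hc.2
        have := dvd_sub a1 a2
        have e3 : ((x : ℤ) - c) * (x + c) = ((x : ℤ) ^ 2 + (e : ℤ) ^ 2) - ((c : ℤ) ^ 2 + (e : ℤ) ^ 2) := by ring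
        rw [e3]
        exact this
      rw [mem_insert, mem_singleton]
      rcases hp'.dvd_or_dvd h1 with h2 | h2
      · left
        obtain ⟨k, hk⟩ := h2
        have b1 : (x : ℤ) < p := by exact_mod_cast hx.1
        have b2 : (c : ℤ) < p := by exact_mod_cast hc.1
        have b0 : (0 : ℤ) < p := by exact_mod_cast hp.pos
        have hk0 : k = 0 := by
          by_contra hne
          rcases lt_or_gt_of_ne hne with h3 | h3
          · nlinarith [show k ≤ -1 by omega]
          · nlinarith [show 1 ≤ k by omega]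
        rw [hk0, mul_zero] at hk
        omega
      · right
        have h3 : (x + c) % p = 0 := by
          apply Nat.mod_eq_zero_of_dvd
          exact_mod_cast h2
        rcases Nat.eq_zero_or_pos c with h0 | h0
        · subst h0
          rw [add_zero, Nat.mod_eq_of_lt hx.1] at h3
          rw [h3]
          simp
        · have h4 : (p - c) % p = p - c := Nat.mod_eq_of_lt (by omega)
          rw [h4]
          have h5 : p ∣ x + c := Nat.dvd_of_mod_eq_zero h3
          obtain ⟨k, hk⟩ := h5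
          have h6 : k = 1 := by
            have h7 : 0 < k := by
              rcases Nat.eq_zero_or_pos k with h8 | h8
              · rw [h8, mul_zero] at hk; omega
              · exact h8
            have h8 : k < 2 := by
              by_contra h9
              push Not at h9
              have : p * 2 ≤ p * k := Nat.mul_le_mul_left _ h9
              omega
            omega
          rw [h6, mul_one] at hk
          omega
    refine (card_le_card hsub).trans ?_
    exact Finset.card_le_two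

lemma dvd_mod_iff {d q : ℕ} (h : q ∣ d) (x e : ℕ) : q ∣ (x % d) ^ 2 + e ^ 2 ↔ q ∣ x ^ 2 + e ^ 2 := by
  have h1 : (x % d) ≡ x [MOD q] := (Nat.mod_modEq x d).of_dvd h
  exact (((h1.pow 2).add_right (e ^ 2)).dvd_iff dvd_rfl)

lemma roots_mul {d p : ℕ} (hd : 0 < d) (hp : p.Prime) (hcop : ¬ p ∣ d) (e : ℕ) :
    (roots (d * p) e).card ≤ (roots d e).card * 2 := by
  classical
  refine le_trans ?_ (Nat.mul_le_mul_left _ (roots_prime hp e))
  rw [← card_product]
  have hc : Nat.Coprime d p := ((Nat.Prime.coprime_iff_not_dvd hp).2 hcop).symm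
  apply Finset.card_le_card_of_injOn (fun c => (c % d, c % p))
  · intro c hc'
    have hc2 : c ∈ roots (d * p) e := hc'
    unfold roots at hc2
    rw [mem_filter, mem_range] at hc2
    show (c % d, c % p) ∈ (roots d e ×ˢ roots p e : Finset _)
    rw [mem_product]
    unfold roots
    simp only [mem_filter, mem_range]
    refine ⟨⟨Nat.mod_lt _ hd, ?_⟩, ⟨Nat.mod_lt _ hp.pos, ?_⟩⟩
    · rw [dvd_mod_iff dvd_rfl]; exact (Dvd.intro _ rfl).trans hc2.2
    · rw [dvd_mod_iff dvd_rfl]; exact (Dvd.intro_left _ rfl).trans hc2.2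
  · intro x hx y hy hxy
    have hx2 : x ∈ roots (d * p) e := hx
    have hy2 : y ∈ roots (d * p) e := hy
    unfold roots at hx2 hy2
    rw [mem_filter, mem_range] at hx2 hy2
    have h1 : x % d = y % d := congrArg Prod.fst hxy
    have h2 : x % p = y % p := congrArg Prod.snd hxy
    have h3 : x ≡ y [MOD d * p] := (Nat.modEq_and_modEq_iff_modEq_mul hc).1 ⟨h1, h2⟩
    have h4 : x % (d * p) = y % (d * p) := h3
    rwa [Nat.mod_eq_of_lt hx2.1, Nat.mod_eq_of_lt hy2.1] at h4

lemma roots_card (P : Finset ℕ) (hP : ∀ p ∈ P, p.Prime) (e : ℕ) :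
    (roots (∏ p ∈ P, p) e).card ≤ 2 ^ P.card := by
  classical
  induction P using Finset.induction_on with
  | empty =>
    simp [roots]
  | insert p P hpP ih =>
    rw [Finset.prod_insert hpP, Finset.card_insert_of_notMem hpP, mul_comm, pow_succ]
    have hP' : ∀ q ∈ P, q.Prime := fun q hq => hP q (mem_insert_of_mem hq)
    have hp : p.Prime := hP p (mem_insert_self _ _)
    refine (roots_mul (Finset.prod_pos fun q hq => (hP' q hq).pos) hp ?_ e).trans
      (Nat.mul_le_mul_right _ (ih hP'))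
    intro h
    obtain ⟨q, hq, hqd⟩ := (Prime.dvd_finsetProd_iff hp.prime _).1 h
    have := (Nat.prime_dvd_prime_iff_eq hp (hP' q hq)).1 hqd
    exact hpP (this ▸ hq)

/-- pairs in `C × C'` whose sum of squares is divisible by `p` -/
def prs (C C' : Finset ℕ) (p : ℕ) : Finset (ℕ × ℕ) :=
  (C ×ˢ C').filter (fun x => p ∣ x.1 ^ 2 + x.2 ^ 2)

/-- pairs with `y = i x` modulo `p` -/
lemma half_pairs (C C' : Finset ℕ) {p : ℕ} (hp : p.Prime) (h32 : 32 ≤ p) (i : ℕ)
    (hi : p ∣ i ^ 2 + 1)
    (hC : ¬ Bad C p) (hC' : ¬ Bad C' p) :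
    (0.85 : ℝ) * (C.card * C'.card) ≤
      p * (((C ×ˢ C').filter (fun x => ¬ p ∣ x.1 ∧ x.2 ≡ i * x.1 [MOD p])).card : ℝ) := by
  classical
  have hp0 : (0 : ℝ) < p := by exact_mod_cast hp.pos
  have hpi : ¬ p ∣ i := by
    intro h
    have h1 : p ∣ i ^ 2 := dvd_pow h (by norm_num)
    have h2 : p ∣ 1 := (Nat.dvd_add_right h1).1 hi
    exact hp.one_lt.ne' (Nat.dvd_one.1 h2)
  have hcop : Nat.Coprime p i := (Nat.Prime.coprime_iff_not_dvd hp).2 hpi
  -- the good residues
  obtain ⟨U, hU⟩ : ∃ U : Finset ℕ, U = (range p).filter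
    (fun a => a ≠ 0 ∧ a ∉ low C p ∧ (i * a) % p ∉ low C' p) := ⟨_, rfl⟩
  have hUcard : p ≤ U.card + 1 + (low C p).card + (low C' p).card := by
    have hsub : range p ⊆ ((U ∪ {0}) ∪ low C p) ∪
        (range p).filter (fun a => (i * a) % p ∈ low C' p) := by
      intro a ha
      rw [mem_union, mem_union, mem_union, mem_singleton, mem_filter, hU, mem_filter]
      tauto
    have h1 := card_le_card hsub
    rw [card_range] at h1
    have h2 : ((range p).filter (fun a => (i * a) % p ∈ low C' p)).card ≤ (low C' p).card := by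
      apply Finset.card_le_card_of_injOn (fun a => (i * a) % p)
      · intro a ha
        rw [mem_coe, mem_filter] at ha
        exact ha.2
      · intro a ha b hb hab
        rw [mem_coe, mem_filter, mem_range] at ha hb
        have h3 : i * a ≡ i * b [MOD p] := hab
        have h4 : a ≡ b [MOD p] := Nat.ModEq.cancel_left_of_coprime hcop h3
        have h5 : a % p = b % p := h4
        rwa [Nat.mod_eq_of_lt ha.1, Nat.mod_eq_of_lt hb.1] at h5
    have h3 := card_union_le ((U ∪ {0}) ∪ low C p) ((range p).filter (fun a => (i * a) % p ∈ low C' p))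
    have h4 := card_union_le (U ∪ {0}) (low C p)
    have h5 := card_union_le U {0}
    rw [card_singleton] at h5
    omega
  unfold Bad at hC hC'
  push Not at hC hC'
  have hU2 : (29 / 32 : ℝ) * p ≤ U.card := by
    have h1 : (p : ℝ) ≤ U.card + 1 + (low C p).card + (low C' p).card := by exact_mod_cast hUcard
    have h2 : (32 : ℝ) ≤ p := by exact_mod_cast h32
    linarith
  -- the pairs
  have hpr : ∀ a ∈ U, (31 / 32 * C.card / p) * (31 / 32 * C'.card / p) ≤
      (((cl C p a) ×ˢ (cl C' p ((i * a) % p))).card : ℝ) := by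
    intro a ha
    rw [hU, mem_filter, mem_range] at ha
    obtain ⟨ha1, ha2, ha3, ha4⟩ := ha
    have h1 : 31 / 32 * (C.card : ℝ) / p ≤ (cl C p a).card := by
      by_contra hcon
      push Not at hcon
      apply ha3
      unfold low
      rw [mem_filter, mem_range]
      refine ⟨ha1, ?_⟩
      rw [lt_div_iff₀ hp0] at hcon
      exact hcon.le
    have h2 : 31 / 32 * (C'.card : ℝ) / p ≤ (cl C' p ((i * a) % p)).card := by
      by_contra hcon
      push Not at hcon
      apply ha4
      unfold low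
      rw [mem_filter, mem_range]
      refine ⟨Nat.mod_lt _ hp.pos, ?_⟩
      rw [lt_div_iff₀ hp0] at hcon
      exact hcon.le
    rw [card_product]
    push_cast
    exact mul_le_mul h1 h2 (by positivity) (by positivity)
  have hsum : ∑ a ∈ U, ((cl C p a) ×ˢ (cl C' p ((i * a) % p))).card ≤
      ((C ×ˢ C').filter (fun x => ¬ p ∣ x.1 ∧ x.2 ≡ i * x.1 [MOD p])).card := by
    rw [← Finset.card_biUnion]
    · apply card_le_card
      intro x hx
      rw [mem_biUnion] at hx
      obtain ⟨a, ha, hxa⟩ := hx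
      rw [hU, mem_filter, mem_range] at ha
      unfold cl at hxa
      rw [mem_product, mem_filter, mem_filter] at hxa
      rw [mem_filter, mem_product]
      refine ⟨⟨hxa.1.1, hxa.2.1⟩, ?_, ?_⟩
      · intro h
        have := Nat.mod_eq_zero_of_dvd h
        rw [hxa.1.2] at this
        exact ha.2.1 this
      · show x.2 % p = (i * x.1) % p
        rw [hxa.2.2, ← hxa.1.2]
        exact (Nat.mul_mod_mod _ _ _)
    · intro a _ b _ hab
      show Disjoint (cl C p a ×ˢ cl C' p (i * a % p)) (cl C p b ×ˢ cl C' p (i * b % p))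
      rw [Finset.disjoint_left]
      intro x hx hx'
      unfold cl at hx hx'
      rw [mem_product, mem_filter, mem_filter] at hx hx'
      exact hab (hx.1.2.symm.trans hx'.1.2)
  have hsumR : ∑ a ∈ U, (31 / 32 * (C.card : ℝ) / p) * (31 / 32 * (C'.card : ℝ) / p) ≤
      (((C ×ˢ C').filter (fun x => ¬ p ∣ x.1 ∧ x.2 ≡ i * x.1 [MOD p])).card : ℝ) := by
    refine (Finset.sum_le_sum hpr).trans ?_
    exact_mod_cast hsum
  rw [Finset.sum_const, nsmul_eq_mul] at hsumR
  have h1 := mul_le_mul_of_nonneg_left hsumR hp0.le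
  refine le_trans ?_ h1
  have h2 : (p : ℝ) * ((U.card : ℝ) * ((31 / 32 * C.card / p) * (31 / 32 * C'.card / p)))
      = (31 / 32) ^ 2 * (C.card * C'.card) * ((U.card : ℝ) / p) := by
    field_simp
  rw [h2]
  have h3 : (29 / 32 : ℝ) ≤ (U.card : ℝ) / p := by
    rw [le_div_iff₀ hp0]; exact hU2
  have h4 : (0 : ℝ) ≤ (31 / 32) ^ 2 * (C.card * C'.card) := by positivity
  have h5 := mul_le_mul_of_nonneg_left h3 h4
  have h6 : (0 : ℝ) ≤ (C.card : ℝ) * C'.card := by positivity
  nlinarith

/-- many pairs in good classes -/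
theorem good_pairs (C C' : Finset ℕ) {p : ℕ} (hp : p.Prime) (h4 : p % 4 = 1) (h32 : 32 ≤ p)
    (hC : ¬ Bad C p) (hC' : ¬ Bad C' p) :
    (1.7 : ℝ) * (C.card * C'.card) ≤ p * ((prs C C' p).card : ℝ) := by
  classical
  have : Fact p.Prime := ⟨hp⟩
  obtain ⟨i, hi1, hi⟩ : ∃ i : ℕ, i < p ∧ p ∣ i ^ 2 + 1 := by
    have h := (ZMod.exists_sq_eq_neg_one_iff (p := p)).2 (by omega)
    obtain ⟨y, hy⟩ := h
    refine ⟨y.val, ZMod.val_lt y, ?_⟩
    rw [← ZMod.natCast_eq_zero_iff]
    push_cast
    rw [ZMod.natCast_zmod_val, pow_two, ← hy]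
    ring
  have hi' : p ∣ (p - i) ^ 2 + 1 := by
    have h1 : (p : ℤ) ∣ ((p : ℤ) - i) ^ 2 + 1 := by
      have h2 : ((p : ℤ) - i) ^ 2 + 1 = p * (p - 2 * i) + ((i : ℤ) ^ 2 + 1) := by ring
      rw [h2]
      apply dvd_add (Dvd.intro _ rfl)
      exact_mod_cast hi
    have h3 : (((p - i) ^ 2 + 1 : ℕ) : ℤ) = ((p : ℤ) - i) ^ 2 + 1 := by
      push_cast [Nat.cast_sub hi1.le]
      ring
    rw [← h3] at h1
    exact_mod_cast h1
  have a1 := half_pairs C C' hp h32 i hi hC hC'
  have a2 := half_pairs C C' hp h32 (p - i) hi' hC hC'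
  have hdis : ((C ×ˢ C').filter (fun x => ¬ p ∣ x.1 ∧ x.2 ≡ i * x.1 [MOD p])).card +
      ((C ×ˢ C').filter (fun x => ¬ p ∣ x.1 ∧ x.2 ≡ (p - i) * x.1 [MOD p])).card ≤
      (prs C C' p).card := by
    rw [← card_union_of_disjoint]
    · apply card_le_card
      intro x hx
      unfold prs
      rw [mem_union, mem_filter, mem_filter] at hx
      have key : ∀ j : ℕ, p ∣ j ^ 2 + 1 → x.2 ≡ j * x.1 [MOD p] → p ∣ x.1 ^ 2 + x.2 ^ 2 := by
        intro j hj hx
        have h1 : x.1 ^ 2 + x.2 ^ 2 ≡ x.1 ^ 2 + (j * x.1) ^ 2 [MOD p] := (hx.pow 2).add_left _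
        rw [h1.dvd_iff dvd_rfl]
        have h2 : x.1 ^ 2 + (j * x.1) ^ 2 = (j ^ 2 + 1) * x.1 ^ 2 := by ring
        rw [h2]
        exact dvd_mul_of_dvd_left hj _
      rw [mem_filter]
      rcases hx with hx | hx
      · exact ⟨hx.1, key i hi hx.2.2⟩
      · exact ⟨hx.1, key (p - i) hi' hx.2.2⟩
    · rw [Finset.disjoint_left]
      intro x hx hx'
      rw [mem_filter] at hx hx'
      obtain ⟨_, hx1, hx2⟩ := hx
      obtain ⟨_, _, hx3⟩ := hx'
      have h1 : i * x.1 ≡ (p - i) * x.1 [MOD p] := hx2.symm.trans hx3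
      have hcx : Nat.Coprime p x.1 := (Nat.Prime.coprime_iff_not_dvd hp).2 hx1
      have h2 : i ≡ p - i [MOD p] := Nat.ModEq.cancel_right_of_coprime hcx h1
      have h3 : p ∣ i + i := by
        have h4 : i + i ≡ (p - i) + i [MOD p] := h2.add_right i
        rw [Nat.sub_add_cancel hi1.le] at h4
        rw [h4.dvd_iff dvd_rfl]
      have hpi : ¬ p ∣ i := by
        intro h
        have h1 : p ∣ i ^ 2 := dvd_pow h (by norm_num)
        have h2 : p ∣ 1 := (Nat.dvd_add_right h1).1 hi
        exact hp.one_lt.ne' (Nat.dvd_one.1 h2)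
      rw [← two_mul] at h3
      rcases (Nat.Prime.dvd_mul hp).1 h3 with h5 | h5
      · have := Nat.le_of_dvd (by norm_num) h5
        omega
      · exact hpi h5
  have hdisR : (((C ×ˢ C').filter (fun x => ¬ p ∣ x.1 ∧ x.2 ≡ i * x.1 [MOD p])).card : ℝ) +
      (((C ×ˢ C').filter (fun x => ¬ p ∣ x.1 ∧ x.2 ≡ (p - i) * x.1 [MOD p])).card : ℝ) ≤
      ((prs C C' p).card : ℝ) := by exact_mod_cast hdis
  have hp0 : (0 : ℝ) ≤ p := by positivity
  have := mul_le_mul_of_nonneg_left hdisR hp0
  linarith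

end Pool.Agent.P8H42.NS
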