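import Pool.Agent.P8H42.NS2

/-!
# Many pairs with `x ^ 2 + y ^ 2` divisible by a product of many primes
-/

set_option autoImplicit false

namespace Pool.Agent.P8H42.NS

open Finset

/-- pairs of residues with sum of squares zero -/
def RR (d : ℕ) : Finset (ℕ × ℕ) := (range d ×ˢ range d).filter (fun r => d ∣ r.1 ^ 2 + r.2 ^ 2)

lemma mod_pair_iff (d x y : ℕ) : d ∣ (x % d) ^ 2 + (y % d) ^ 2 ↔ d ∣ x ^ 2 + y ^ 2 := by
  have h1 : (x % d) ≡ x [MOD d] := Nat.mod_modEq x d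
  have h2 : (y % d) ≡ y [MOD d] := Nat.mod_modEq y d
  exact ((h1.pow 2).add (h2.pow 2)).dvd_iff dvd_rfl

lemma prs_card (B : Finset ℕ) {d : ℕ} (hd : 0 < d) :
    (prs B B d).card = ∑ r ∈ RR d, (cl B d r.1).card * (cl B d r.2).card := by
  classical
  rw [Finset.card_eq_sum_card_fiberwise (f := fun x => (x.1 % d, x.2 % d)) (t := RR d)]
  · refine Finset.sum_congr rfl fun r hr => ?_
    rw [← card_product]
    congr 1
    ext x
    unfold prs cl
    simp only [mem_filter, mem_product]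
    constructor
    · rintro ⟨⟨⟨h1, h2⟩, h3⟩, h4⟩
      have h5 : x.1 % d = r.1 := congrArg Prod.fst h4
      have h6 : x.2 % d = r.2 := congrArg Prod.snd h4
      exact ⟨⟨h1, h5⟩, ⟨h2, h6⟩⟩
    · rintro ⟨⟨h1, h5⟩, ⟨h2, h6⟩⟩
      refine ⟨⟨⟨h1, h2⟩, ?_⟩, ?_⟩
      · rw [← mod_pair_iff, h5, h6]
        unfold RR at hr
        rw [mem_filter] at hr
        exact hr.2
      · exact Prod.ext h5 h6
  · intro x hx
    have hx' : x ∈ prs B B d := hx
    unfold prs at hx'
    rw [mem_filter] at hx'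
    show (x.1 % d, x.2 % d) ∈ RR d
    unfold RR
    rw [mem_filter, mem_product, mem_range, mem_range]
    refine ⟨⟨Nat.mod_lt _ hd, Nat.mod_lt _ hd⟩, ?_⟩
    rw [mod_pair_iff]
    exact hx'.2

lemma prs_mul_card (B : Finset ℕ) {d p : ℕ} (hcop : Nat.Coprime d p)
    (H : Finset (ℕ × ℕ)) (hH : H ⊆ RR d) :
    ∑ r ∈ H, (prs (cl B d r.1) (cl B d r.2) p).card ≤ (prs B B (d * p)).card := by
  classical
  rw [← Finset.card_biUnion]
  · apply card_le_card
    intro x hx
    rw [mem_biUnion] at hx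
    obtain ⟨r, hr, hx⟩ := hx
    have hr' := hH hr
    unfold RR at hr'
    rw [mem_filter] at hr'
    unfold prs cl at hx
    rw [mem_filter, mem_product, mem_filter, mem_filter] at hx
    unfold prs
    rw [mem_filter, mem_product]
    refine ⟨⟨hx.1.1.1, hx.1.2.1⟩, ?_⟩
    apply Nat.Coprime.mul_dvd_of_dvd_of_dvd hcop _ hx.2
    rw [← mod_pair_iff, hx.1.1.2, hx.1.2.2]
    exact hr'.2
  · intro r _ s _ hrs
    show Disjoint (prs (cl B d r.1) (cl B d r.2) p) (prs (cl B d s.1) (cl B d s.2) p)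
    rw [Finset.disjoint_left]
    intro x hx hx'
    unfold prs cl at hx hx'
    rw [mem_filter, mem_product, mem_filter, mem_filter] at hx hx'
    apply hrs
    exact Prod.ext (hx.1.1.2.symm.trans hx'.1.1.2) (hx.1.2.2.symm.trans hx'.1.2.2)

lemma cl_sum (B : Finset ℕ) {d : ℕ} (hd : 0 < d) : ∑ c ∈ range d, (cl B d c).card = B.card := by
  classical
  rw [Finset.card_eq_sum_card_fiberwise (s := B) (f := fun x => x % d) (t := range d)]
  · rfl
  · intro x _
    simp only [coe_range, Set.mem_Iio]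
    exact Nat.mod_lt _ hd

/-- tiny classes carry few pairs -/
lemma tiny_sum (B P : Finset ℕ) (hP : ∀ p ∈ P, p.Prime) (T : ℝ) (hT : 0 ≤ T) :
    ∑ r ∈ (RR (∏ p ∈ P, p)).filter (fun r => ((cl B (∏ p ∈ P, p) r.1).card : ℝ) < T),
      ((cl B (∏ p ∈ P, p) r.1).card : ℝ) * (cl B (∏ p ∈ P, p) r.2).card ≤ T * 2 ^ P.card * B.card := by
  classical
  have hd : 0 < ∏ p ∈ P, p := Finset.prod_pos fun p h => (hP p h).pos
  have hroots := roots_card P hP
  obtain ⟨d, hdd⟩ : ∃ d, d = ∏ p ∈ P, p := ⟨_, rfl⟩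
  rw [← hdd] at hd ⊢
  simp only [← hdd] at hroots
  calc ∑ r ∈ (RR d).filter (fun r => ((cl B d r.1).card : ℝ) < T),
      ((cl B d r.1).card : ℝ) * (cl B d r.2).card
      ≤ ∑ r ∈ RR d, T * (cl B d r.2).card := by
        have b1 : ∀ r ∈ (RR d).filter (fun r => ((cl B d r.1).card : ℝ) < T),
            ((cl B d r.1).card : ℝ) * (cl B d r.2).card ≤ T * (cl B d r.2).card := by
          intro r hr
          rw [mem_filter] at hr
          exact mul_le_mul_of_nonneg_right hr.2.le (Nat.cast_nonneg _)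
        have b2 : ∀ r ∈ RR d, r ∉ (RR d).filter (fun r => ((cl B d r.1).card : ℝ) < T) →
            0 ≤ T * ((cl B d r.2).card : ℝ) := by
          intro r _ _
          exact mul_nonneg hT (Nat.cast_nonneg _)
        exact le_trans (Finset.sum_le_sum b1)
          (Finset.sum_le_sum_of_subset_of_nonneg (filter_subset _ _) b2)
    _ = ∑ e ∈ range d, ∑ c ∈ roots d e, T * ((cl B d e).card : ℝ) := by
        have h1 : RR d = (range d).biUnion (fun e => (roots d e).image (fun c => (c, e))) := by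
          ext r
          unfold RR roots
          simp only [mem_filter, mem_product, mem_biUnion, mem_image, mem_range]
          constructor
          · rintro ⟨⟨h1, h2⟩, h3⟩
            exact ⟨r.2, h2, r.1, ⟨h1, h3⟩, rfl⟩
          · rintro ⟨e, he, c, ⟨hc, h3⟩, rfl⟩
            exact ⟨⟨hc, he⟩, h3⟩
        rw [h1, Finset.sum_biUnion]
        · refine Finset.sum_congr rfl fun e _ => ?_
          rw [Finset.sum_image]
          intro a _ b _ hab
          exact congrArg Prod.fst hab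
        · intro a _ b _ hab
          show Disjoint ((roots d a).image (fun c => (c, a))) ((roots d b).image (fun c => (c, b)))
          rw [Finset.disjoint_left]
          intro r hr hr'
          rw [mem_image] at hr hr'
          obtain ⟨c, _, rfl⟩ := hr
          obtain ⟨c', _, h⟩ := hr'
          exact hab (congrArg Prod.snd h).symm
    _ ≤ ∑ e ∈ range d, (2 ^ P.card : ℝ) * (T * ((cl B d e).card : ℝ)) := by
        refine Finset.sum_le_sum fun e _ => ?_
        rw [Finset.sum_const, nsmul_eq_mul]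
        refine mul_le_mul_of_nonneg_right ?_ (by positivity)
        exact_mod_cast hroots e
    _ = T * 2 ^ P.card * B.card := by
        rw [← Finset.mul_sum, ← Finset.mul_sum, ← Nat.cast_sum, cl_sum B hd]
        ring

lemma RR_swap {d : ℕ} {r : ℕ × ℕ} : r ∈ RR d ↔ r.swap ∈ RR d := by
  unfold RR
  simp only [mem_filter, mem_product, Prod.fst_swap, Prod.snd_swap]
  rw [add_comm]
  tauto

lemma tiny_sum' (B P : Finset ℕ) (hP : ∀ p ∈ P, p.Prime) (T : ℝ) (hT : 0 ≤ T) :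
    ∑ r ∈ (RR (∏ p ∈ P, p)).filter (fun r => ((cl B (∏ p ∈ P, p) r.2).card : ℝ) < T),
      ((cl B (∏ p ∈ P, p) r.1).card : ℝ) * (cl B (∏ p ∈ P, p) r.2).card ≤ T * 2 ^ P.card * B.card := by
  classical
  refine le_trans (le_of_eq ?_) (tiny_sum B P hP T hT)
  refine Finset.sum_bij' (fun r _ => r.swap) (fun r _ => r.swap) ?_ ?_ ?_ ?_ ?_
  · intro r hr
    rw [mem_filter] at hr ⊢
    exact ⟨RR_swap.1 hr.1, hr.2⟩
  · intro r hr
    rw [mem_filter] at hr ⊢
    exact ⟨RR_swap.1 hr.1, hr.2⟩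
  · intro r _; rfl
  · intro r _; rfl
  · intro r _
    exact mul_comm _ _

/-- choosing the next prime -/
theorem step (X Q k m : ℕ) (B pool : Finset ℕ) (hB : ∀ x ∈ B, x < X)
    (hpool : ∀ p ∈ pool, p.Prime ∧ p % 4 = 1 ∧ 32 ≤ p ∧ p ≤ Q) (hsize : 20 * m + k ≤ pool.card)
    (hX : Q ^ (k + m) ≤ X) (hQ : 1 ≤ Q)
    (hm : 80 * (X : ℝ) < Real.exp ((m : ℝ) / 2 ^ 19) * (0.65 : ℝ) ^ k * B.card)
    (P : Finset ℕ) (hP : P ⊆ pool) (hj : P.card < k)
    (hS : (1.3 : ℝ) ^ P.card * (B.card : ℝ) ^ 2 ≤ (prs B B (∏ p ∈ P, p)).card * ((∏ p ∈ P, p : ℕ) : ℝ)) :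
    ∃ p ∈ pool, p ∉ P ∧
      (1.3 : ℝ) * (prs B B (∏ p ∈ P, p)).card ≤ p * (prs B B ((∏ p ∈ P, p) * p)).card := by
  classical
  have hPp : ∀ p ∈ P, p.Prime := fun p hp => (hpool p (hP hp)).1
  have hd : 0 < ∏ p ∈ P, p := Finset.prod_pos fun p h => (hPp p h).pos
  obtain ⟨T, hT⟩ : ∃ T : ℝ, T = 0.025 * (0.65 : ℝ) ^ P.card * B.card / ((∏ p ∈ P, p : ℕ) : ℝ) := ⟨_, rfl⟩
  have hdR : (0 : ℝ) < ((∏ p ∈ P, p : ℕ) : ℝ) := by exact_mod_cast hd
  have hT0 : 0 ≤ T := by rw [hT]; positivity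
  have ht1 := tiny_sum B P hPp T hT0
  have ht2 := tiny_sum' B P hPp T hT0
  have hdle : ∏ p ∈ P, p ≤ Q ^ P.card := by
    rw [← Finset.prod_const]
    exact Finset.prod_le_prod' fun p hp => (hpool p (hP hp)).2.2.2
  have hnd : ∀ p ∈ pool \ P, ¬ p ∣ ∏ q ∈ P, q := by
    intro p hp h
    rw [mem_sdiff] at hp
    have hpp := (hpool p hp.1).1
    obtain ⟨q, hq, hqd⟩ := (Prime.dvd_finsetProd_iff hpp.prime _).1 h
    have := (Nat.prime_dvd_prime_iff_eq hpp (hPp q hq)).1 hqd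
    exact hp.2 (this ▸ hq)
  obtain ⟨d, hdd⟩ : ∃ d, d = ∏ p ∈ P, p := ⟨_, rfl⟩
  rw [← hdd] at hS hd ht1 ht2 hT hdR hdle hnd ⊢
  obtain ⟨S, hSd⟩ : ∃ S : ℝ, S = ((prs B B d).card : ℝ) := ⟨_, rfl⟩
  have hS0 : 0 ≤ S := by rw [hSd]; positivity
  have hSsum : S = ∑ r ∈ RR d, ((cl B d r.1).card : ℝ) * (cl B d r.2).card := by
    rw [hSd, prs_card B hd]
    push_cast
    rfl
  rw [← hSd] at hS ⊢
  have hT2 : T * 2 ^ P.card * B.card ≤ 0.025 * S := by
    have h1 : T * 2 ^ P.card * B.card = 0.025 * ((1.3 : ℝ) ^ P.card * (B.card : ℝ) ^ 2) / d := by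
      rw [hT]
      have : (1.3 : ℝ) ^ P.card = (0.65 : ℝ) ^ P.card * 2 ^ P.card := by
        rw [← mul_pow]; norm_num
      rw [this]
      field_simp
    rw [h1, div_le_iff₀ hdR]
    nlinarith
  -- number of bad primes of a large class
  have hnb : ∀ c, T ≤ ((cl B d c).card : ℝ) →
      ((pool \ P).filter (fun p => Bad (cl B d c) p)).card ≤ m := by
    intro c hc
    by_contra hcon
    push Not at hcon
    obtain ⟨Ps, hPs1, hPs2⟩ := Finset.exists_subset_card_eq hcon.le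
    have hPs3 : ∀ p ∈ Ps, p ∈ pool \ P ∧ Bad (cl B d c) p := by
      intro p hp
      have := hPs1 hp
      rwa [mem_filter] at this
    have h1 := few_bad X d c hd (cl B d c)
      (fun x hx => by
        unfold cl at hx
        rw [mem_filter] at hx
        exact ⟨hB x hx.1, hx.2⟩) Ps
      (fun p hp => (hpool p (mem_sdiff.1 (hPs3 p hp).1).1).1)
      (fun p hp => hnd p (hPs3 p hp).1)
      (by
        refine le_trans ?_ hX
        have h2 : ∏ p ∈ Ps, p ≤ Q ^ m := by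
          rw [← hPs2, ← Finset.prod_const]
          exact Finset.prod_le_prod' fun p hp =>
            (hpool p (mem_sdiff.1 (hPs3 p hp).1).1).2.2.2
        calc d * ∏ p ∈ Ps, p ≤ Q ^ P.card * Q ^ m := Nat.mul_le_mul hdle h2
          _ = Q ^ (P.card + m) := by rw [pow_add]
          _ ≤ Q ^ (k + m) := Nat.pow_le_pow_right hQ (by omega))
      (fun p hp => (hPs3 p hp).2)
    rw [hPs2] at h1
    have h2 : Real.exp ((m : ℝ) / 2 ^ 19) * T * d ≤ 2 * X := by
      refine le_trans ?_ h1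
      refine mul_le_mul_of_nonneg_right ?_ hdR.le
      exact mul_le_mul_of_nonneg_left hc (Real.exp_pos _).le
    have h3 : Real.exp ((m : ℝ) / 2 ^ 19) * T * d =
        0.025 * (Real.exp ((m : ℝ) / 2 ^ 19) * (0.65 : ℝ) ^ P.card * B.card) := by
      rw [hT]
      field_simp
    rw [h3] at h2
    have h4 : (0.65 : ℝ) ^ k ≤ (0.65 : ℝ) ^ P.card :=
      pow_le_pow_of_le_one (by norm_num) (by norm_num) hj.le
    have h5 : Real.exp ((m : ℝ) / 2 ^ 19) * (0.65 : ℝ) ^ k * B.card ≤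
        Real.exp ((m : ℝ) / 2 ^ 19) * (0.65 : ℝ) ^ P.card * B.card := by
      refine mul_le_mul_of_nonneg_right ?_ (by positivity)
      exact mul_le_mul_of_nonneg_left h4 (Real.exp_pos _).le
    linarith
  -- the heavy pairs
  obtain ⟨H, hH⟩ : ∃ H : Finset (ℕ × ℕ), H = (RR d).filter
    (fun r => T ≤ ((cl B d r.1).card : ℝ) ∧ T ≤ ((cl B d r.2).card : ℝ)) := ⟨_, rfl⟩
  have hHsub : H ⊆ RR d := by rw [hH]; exact filter_subset _ _
  obtain ⟨f, hf⟩ : ∃ f : ℕ × ℕ → ℝ, f = fun r => ((cl B d r.1).card : ℝ) * (cl B d r.2).card :=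
    ⟨_, rfl⟩
  have hf0 : ∀ r, 0 ≤ f r := fun r => by rw [hf]; positivity
  have hHsum : 0.95 * S ≤ ∑ r ∈ H, f r := by
    have h1 : ∑ r ∈ RR d, f r ≤ (∑ r ∈ H, f r) +
        (∑ r ∈ (RR d).filter (fun r => ((cl B d r.1).card : ℝ) < T), f r +
        ∑ r ∈ (RR d).filter (fun r => ((cl B d r.2).card : ℝ) < T), f r) := by
      rw [hH, Finset.sum_filter, Finset.sum_filter, Finset.sum_filter, ← Finset.sum_add_distrib,
        ← Finset.sum_add_distrib]
      refine Finset.sum_le_sum fun r _ => ?_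
      have := hf0 r
      by_cases h1 : T ≤ ((cl B d r.1).card : ℝ)
      · by_cases h2 : T ≤ ((cl B d r.2).card : ℝ)
        · simp only [h1, h2, and_self, if_true]
          split_ifs <;> linarith
        · have h3 : ((cl B d r.2).card : ℝ) < T := not_le.1 h2
          simp only [h2, h3, and_false, if_true, if_false]
          split_ifs <;> linarith
      · have h3 : ((cl B d r.1).card : ℝ) < T := not_le.1 h1
        simp only [h1, h3, false_and, if_true, if_false]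
        split_ifs <;> linarith
    have h2 : S = ∑ r ∈ RR d, f r := by rw [hSsum, hf]
    have h3 : ∑ r ∈ (RR d).filter (fun r => ((cl B d r.1).card : ℝ) < T), f r ≤ 0.025 * S := by
      rw [hf]; exact ht1.trans hT2
    have h4 : ∑ r ∈ (RR d).filter (fun r => ((cl B d r.2).card : ℝ) < T), f r ≤ 0.025 * S := by
      rw [hf]; exact ht2.trans hT2
    linarith
  have hHle : ∑ r ∈ H, f r ≤ S := by
    rw [hSsum]
    have : ∑ r ∈ RR d, ((cl B d r.1).card : ℝ) * (cl B d r.2).card = ∑ r ∈ RR d, f r := by rw [hf]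
    rw [this]
    exact Finset.sum_le_sum_of_subset_of_nonneg hHsub fun r _ _ => hf0 r
  -- averaging over the primes
  obtain ⟨bad, hbad⟩ : ∃ bad : ℕ → ℝ, bad = fun p => ∑ r ∈ H,
    (if Bad (cl B d r.1) p ∨ Bad (cl B d r.2) p then f r else 0) := ⟨_, rfl⟩
  have hpc : 20 * m + 1 ≤ (pool \ P).card := by
    have := Finset.card_sdiff_add_card_eq_card hP
    omega
  have hbsum : ∑ p ∈ pool \ P, bad p ≤ 2 * m * S := by
    rw [hbad, Finset.sum_comm]
    have h1 : ∀ r ∈ H, ∑ p ∈ pool \ P,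
        (if Bad (cl B d r.1) p ∨ Bad (cl B d r.2) p then f r else 0) ≤ 2 * m * f r := by
      intro r hr
      rw [hH, mem_filter] at hr
      have a1 := hnb r.1 hr.2.1
      have a2 := hnb r.2 hr.2.2
      rw [← Finset.sum_filter, Finset.sum_const, nsmul_eq_mul]
      refine mul_le_mul_of_nonneg_right ?_ (hf0 r)
      have h2 : ((pool \ P).filter (fun p => Bad (cl B d r.1) p ∨ Bad (cl B d r.2) p)).card ≤
          2 * m := by
        rw [Finset.filter_or]
        exact (card_union_le _ _).trans ((Nat.add_le_add a1 a2).trans (by omega))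
      exact_mod_cast h2
    refine (Finset.sum_le_sum h1).trans ?_
    rw [← Finset.mul_sum]
    exact mul_le_mul_of_nonneg_left hHle (by positivity)
  obtain ⟨p, hp, hpb⟩ : ∃ p ∈ pool \ P, bad p ≤ 0.1 * S := by
    by_contra hcon
    push Not at hcon
    have hne : (pool \ P).Nonempty := Finset.card_pos.1 (by omega)
    have h1 : ∑ p ∈ pool \ P, 0.1 * S < ∑ p ∈ pool \ P, bad p := Finset.sum_lt_sum_of_nonempty hne hcon
    rw [Finset.sum_const, nsmul_eq_mul] at h1
    have h2 : (20 * (m : ℝ) + 1) ≤ ((pool \ P).card : ℝ) := by exact_mod_cast hpc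
    have h3 : (20 * (m : ℝ) + 1) * (0.1 * S) ≤ ((pool \ P).card : ℝ) * (0.1 * S) :=
      mul_le_mul_of_nonneg_right h2 (by positivity)
    nlinarith
  have hpp := hpool p (mem_sdiff.1 hp).1
  refine ⟨p, (mem_sdiff.1 hp).1, (mem_sdiff.1 hp).2, ?_⟩
  have hcop : Nat.Coprime d p := ((Nat.Prime.coprime_iff_not_dvd hpp.1).2 (hnd p hp)).symm
  have hfin := prs_mul_card B hcop H hHsub
  have hfinR : ∑ r ∈ H, ((prs (cl B d r.1) (cl B d r.2) p).card : ℝ) ≤ ((prs B B (d * p)).card : ℝ) := by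
    exact_mod_cast hfin
  have hp0 : (0 : ℝ) < p := by exact_mod_cast hpp.1.pos
  have h1 : ∀ r ∈ H, 1.7 * (f r - (if Bad (cl B d r.1) p ∨ Bad (cl B d r.2) p then f r else 0)) ≤
      p * ((prs (cl B d r.1) (cl B d r.2) p).card : ℝ) := by
    intro r _
    by_cases hb : Bad (cl B d r.1) p ∨ Bad (cl B d r.2) p
    · rw [if_pos hb, sub_self, mul_zero]
      positivity
    · rw [if_neg hb, sub_zero]
      push Not at hb
      have := good_pairs (cl B d r.1) (cl B d r.2) hpp.1 hpp.2.1 hpp.2.2.1 hb.1 hb.2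
      rw [hf]
      exact this
  have h2 := Finset.sum_le_sum h1
  rw [← Finset.mul_sum, ← Finset.mul_sum, Finset.sum_sub_distrib] at h2
  have h3 : ∑ r ∈ H, (if Bad (cl B d r.1) p ∨ Bad (cl B d r.2) p then f r else 0) ≤ 0.1 * S := by
    rw [hbad] at hpb
    exact hpb
  have h4 : (p : ℝ) * ∑ r ∈ H, ((prs (cl B d r.1) (cl B d r.2) p).card : ℝ) ≤
      p * ((prs B B (d * p)).card : ℝ) := mul_le_mul_of_nonneg_left hfinR hp0.le
  nlinarith

/-- the induction -/
theorem iterate (X Q k m : ℕ) (B pool : Finset ℕ) (hB : ∀ x ∈ B, x < X)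
    (hpool : ∀ p ∈ pool, p.Prime ∧ p % 4 = 1 ∧ 32 ≤ p ∧ p ≤ Q) (hsize : 20 * m + k ≤ pool.card)
    (hX : Q ^ (k + m) ≤ X) (hQ : 1 ≤ Q)
    (hm : 80 * (X : ℝ) < Real.exp ((m : ℝ) / 2 ^ 19) * (0.65 : ℝ) ^ k * B.card) :
    ∀ j ≤ k, ∃ P ⊆ pool, P.card = j ∧
      (1.3 : ℝ) ^ P.card * (B.card : ℝ) ^ 2 ≤ (prs B B (∏ p ∈ P, p)).card * ((∏ p ∈ P, p : ℕ) : ℝ) := by
  classical
  intro j
  induction j with
  | zero =>
    intro _
    refine ⟨∅, empty_subset _, rfl, ?_⟩
    have : prs B B 1 = B ×ˢ B := by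
      unfold prs
      rw [Finset.filter_true_of_mem]
      intro x _
      exact one_dvd _
    rw [Finset.prod_empty, this, card_product, card_empty]
    push_cast
    apply le_of_eq
    ring
  | succ j ih =>
    intro hj
    obtain ⟨P, hP, hPc, hPS⟩ := ih (by omega)
    obtain ⟨p, hp, hpP, hstep⟩ := step X Q k m B pool hB hpool hsize hX hQ hm P hP (by omega) hPS
    refine ⟨insert p P, ?_, ?_, ?_⟩
    · intro q hq
      rw [mem_insert] at hq
      rcases hq with rfl | hq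
      · exact hp
      · exact hP hq
    · rw [card_insert_of_notMem hpP, hPc]
    · rw [card_insert_of_notMem hpP, Finset.prod_insert hpP, pow_succ]
      rw [mul_comm p]
      have h0 : (0 : ℝ) ≤ ((∏ p ∈ P, p : ℕ) : ℝ) := by positivity
      have h1 := mul_le_mul_of_nonneg_right hstep h0
      rw [Nat.cast_mul]
      calc (1.3 : ℝ) ^ P.card * 1.3 * (B.card : ℝ) ^ 2
          = 1.3 * ((1.3 : ℝ) ^ P.card * (B.card : ℝ) ^ 2) := by ring
        _ ≤ 1.3 * ((prs B B (∏ p ∈ P, p)).card * ((∏ p ∈ P, p : ℕ) : ℝ)) := by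
            refine mul_le_mul_of_nonneg_left hPS (by norm_num)
        _ = 1.3 * (prs B B (∏ p ∈ P, p)).card * ((∏ p ∈ P, p : ℕ) : ℝ) := by ring
        _ ≤ p * (prs B B ((∏ p ∈ P, p) * p)).card * ((∏ p ∈ P, p : ℕ) : ℝ) := h1
        _ = _ := by ring

end Pool.Agent.P8H42.NS
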