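import Pool.Agent.P8H42.NS3
import Pool.Agent.Y821.DD.Primes

/-!
# Many representations as a sum of two squares of elements of a dense set

There is `c > 0` such that for all large `X` every `B ⊆ [0, X)` with at least
`X exp (-c log X / log log X)` elements has `exp (c log X / log log X)` pairs `(x, y)` with the same
value of `x ^ 2 + y ^ 2`.
-/

set_option autoImplicit false

namespace Pool.Agent.P8H42.NS

open Finset Filter Topology

lemma tendsto_kappa_real : Tendsto (fun x : ℝ => x / Real.log x) atTop atTop := by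
  have h1 : Tendsto (fun x : ℝ => Real.log x / x) atTop (𝓝 0) := by
    simpa using Real.isLittleO_log_id_atTop.tendsto_div_nhds_zero
  have h2 : Tendsto (fun x : ℝ => Real.log x / x) atTop (𝓝[>] 0) := by
    refine tendsto_nhdsWithin_iff.2 ⟨h1, ?_⟩
    filter_upwards [eventually_gt_atTop 1] with x hx
    exact div_pos (Real.log_pos hx) (by linarith)
  have h3 := tendsto_inv_nhdsGT_zero.comp h2
  refine h3.congr fun x => ?_
  simp [Function.comp]

lemma tendsto_kappa : Tendsto (fun X : ℕ => Real.log X / Real.log (Real.log X)) atTop atTop :=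
  tendsto_kappa_real.comp (Real.tendsto_log_atTop.comp tendsto_natCast_atTop_atTop)

/-- the pigeonhole step -/
lemma pigeon (X k : ℕ) (B P : Finset ℕ) (hB : ∀ x ∈ B, x < X) (hd : 0 < ∏ p ∈ P, p)
    (hX0 : 0 < X)
    (hdX : ∏ p ∈ P, p ≤ X)
    (hS : (1.3 : ℝ) ^ k * (B.card : ℝ) ^ 2 ≤ (prs B B (∏ p ∈ P, p)).card * ((∏ p ∈ P, p : ℕ) : ℝ)) :
    ∃ M : ℕ, (1.3 : ℝ) ^ k * ((B.card : ℝ) / X) ^ 2 / 3 ≤
      (((B ×ˢ B).filter (fun x => x.1 ^ 2 + x.2 ^ 2 = M)).card : ℝ) := by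
  classical
  obtain ⟨d, hdd⟩ : ∃ d, d = ∏ p ∈ P, p := ⟨_, rfl⟩
  rw [← hdd] at hS hd hdX
  have hdR : (0 : ℝ) < d := by exact_mod_cast hd
  have hXR : (0 : ℝ) < X := by exact_mod_cast hX0
  by_contra hcon
  push Not at hcon
  obtain ⟨r, hr⟩ : ∃ r : ℝ, r = (1.3 : ℝ) ^ k * ((B.card : ℝ) / X) ^ 2 / 3 := ⟨_, rfl⟩
  rw [← hr] at hcon
  have h1 : ((prs B B d).card : ℝ) < ((2 * X ^ 2 / d + 1 : ℕ) : ℝ) * r := by
    have e1 : (prs B B d).card = ∑ q ∈ range (2 * X ^ 2 / d + 1),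
        ((prs B B d).filter (fun x => (x.1 ^ 2 + x.2 ^ 2) / d = q)).card := by
      apply Finset.card_eq_sum_card_fiberwise
      intro x hx
      have hx' : x ∈ prs B B d := hx
      unfold prs at hx'
      rw [mem_filter, mem_product] at hx'
      rw [mem_coe, mem_range, Nat.lt_succ_iff]
      apply Nat.div_le_div_right
      have a1 := hB _ hx'.1.1
      have a2 := hB _ hx'.1.2
      have b1 : x.1 ^ 2 ≤ X ^ 2 := Nat.pow_le_pow_left a1.le 2
      have b2 : x.2 ^ 2 ≤ X ^ 2 := Nat.pow_le_pow_left a2.le 2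
      omega
    rw [e1]
    push_cast
    have e2 : ∀ q ∈ range (2 * X ^ 2 / d + 1),
        (((prs B B d).filter (fun x => (x.1 ^ 2 + x.2 ^ 2) / d = q)).card : ℝ) < r := by
      intro q _
      refine lt_of_le_of_lt ?_ (hcon (d * q))
      have : (prs B B d).filter (fun x => (x.1 ^ 2 + x.2 ^ 2) / d = q) ⊆
          (B ×ˢ B).filter (fun x => x.1 ^ 2 + x.2 ^ 2 = d * q) := by
        intro x hx
        unfold prs at hx
        rw [mem_filter, mem_filter] at hx
        rw [mem_filter]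
        refine ⟨hx.1.1, ?_⟩
        rw [← hx.2, Nat.mul_div_cancel' hx.1.2]
      exact_mod_cast card_le_card this
    have e3 := Finset.sum_lt_sum_of_nonempty (s := range (2 * X ^ 2 / d + 1))
      ⟨0, mem_range.2 (Nat.succ_pos _)⟩ e2
    rw [Finset.sum_const, card_range, nsmul_eq_mul] at e3
    push_cast at e3
    exact e3
  have h2 : ((2 * X ^ 2 / d + 1 : ℕ) : ℝ) * d ≤ 3 * (X : ℝ) ^ 2 := by
    have : (2 * X ^ 2 / d + 1) * d ≤ 3 * X ^ 2 := by
      have a1 := Nat.div_mul_le_self (2 * X ^ 2) d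
      have a2 : d ≤ X ^ 2 := hdX.trans (Nat.le_self_pow (by norm_num) X)
      rw [add_mul, one_mul]
      omega
    exact_mod_cast this
  have hr0 : 0 ≤ r := by rw [hr]; positivity
  have h3 : ((prs B B d).card : ℝ) * d < r * (3 * (X : ℝ) ^ 2) := by
    calc ((prs B B d).card : ℝ) * d < (((2 * X ^ 2 / d + 1 : ℕ) : ℝ) * r) * d :=
          mul_lt_mul_of_pos_right h1 hdR
      _ = r * (((2 * X ^ 2 / d + 1 : ℕ) : ℝ) * d) := by ring
      _ ≤ r * (3 * (X : ℝ) ^ 2) := mul_le_mul_of_nonneg_left h2 hr0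
  have h4 : r * (3 * (X : ℝ) ^ 2) = (1.3 : ℝ) ^ k * (B.card : ℝ) ^ 2 := by
    rw [hr]; field_simp
  linarith

set_option maxHeartbeats 1600000 in
theorem core : ∀ᶠ X : ℕ in atTop, ∀ B : Finset ℕ, (∀ x ∈ B, x < X) →
    (X : ℝ) * Real.exp (-(1 / 2 ^ 26 * (Real.log X / Real.log (Real.log X)))) ≤ B.card →
    ∃ M : ℕ, Real.exp (1 / 2 ^ 26 * (Real.log X / Real.log (Real.log X))) ≤
      (((B ×ˢ B).filter (fun x => x.1 ^ 2 + x.2 ^ 2 = M)).card : ℝ) := by
  have hlog : Tendsto (fun X : ℕ => Real.log X) atTop atTop :=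
    Real.tendsto_log_atTop.comp tendsto_natCast_atTop_atTop
  have hQ : Tendsto (fun X : ℕ => ⌊(Real.log X) ^ 2⌋₊) atTop atTop := by
    apply tendsto_nat_floor_atTop.comp
    exact (tendsto_pow_atTop (by norm_num)).comp hlog
  filter_upwards [hlog.eventually_ge_atTop 144, tendsto_kappa.eventually_ge_atTop (2 ^ 26 : ℝ),
    hQ.eventually Pool.Agent.Y821.DD.count, eventually_gt_atTop 0] with X hL hκ hcount hX0
  intro B hB hBc
  obtain ⟨L, hLd⟩ : ∃ L : ℝ, L = Real.log X := ⟨_, rfl⟩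
  rw [← hLd] at hL hκ hcount hBc ⊢
  obtain ⟨κ, hκd⟩ : ∃ κ : ℝ, κ = L / Real.log L := ⟨_, rfl⟩
  rw [← hκd] at hκ hBc ⊢
  have hXR : (0 : ℝ) < X := by exact_mod_cast hX0
  have hL0 : 0 < L := by linarith
  have hlL : 0 < Real.log L := Real.log_pos (by linarith)
  have hκL : κ * Real.log L = L := by rw [hκd]; field_simp
  obtain ⟨Q, hQd⟩ : ∃ Q : ℕ, Q = ⌊L ^ 2⌋₊ := ⟨_, rfl⟩
  rw [← hQd] at hcount
  have hQ1 : (Q : ℝ) ≤ L ^ 2 := by rw [hQd]; exact Nat.floor_le (by positivity)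
  have hQ2 : L ^ 2 < Q + 1 := by rw [hQd]; exact Nat.lt_floor_add_one _
  have hQ3 : L ^ 2 / 2 ≤ Q := by nlinarith
  have hQ4 : (1 : ℝ) < Q := by nlinarith
  have hQpos : (0 : ℝ) < Q := by linarith
  have hlogQ : Real.log Q ≤ 2 * Real.log L := by
    have : Real.log (L ^ 2) = 2 * Real.log L := by
      rw [Real.log_pow]; norm_num
    rw [← this]
    exact Real.log_le_log hQpos hQ1
  have hlogQ0 : 0 < Real.log Q := Real.log_pos hQ4
  obtain ⟨k, hk⟩ : ∃ k : ℕ, k = ⌊κ / 2 ^ 21⌋₊ := ⟨_, rfl⟩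
  have hκ0 : 0 < κ := by linarith [show (0 : ℝ) < 2 ^ 26 by norm_num]
  have hk1 : (k : ℝ) ≤ κ / 2 ^ 21 := by rw [hk]; exact Nat.floor_le (by positivity)
  have hk2 : κ / 2 ^ 21 < k + 1 := by rw [hk]; exact Nat.lt_floor_add_one _
  obtain ⟨pool, hpl⟩ : ∃ pool : Finset ℕ, pool = (Pool.Agent.Y821.DD.P41 Q).filter (fun p => 32 ≤ p) :=
    ⟨_, rfl⟩
  have hpool : ∀ p ∈ pool, p.Prime ∧ p % 4 = 1 ∧ 32 ≤ p ∧ p ≤ Q := by
    intro p hp
    rw [hpl, mem_filter, Pool.Agent.Y821.DD.P41, mem_filter, mem_Icc] at hp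
    exact ⟨hp.1.2.1, hp.1.2.2, hp.2, hp.1.1.2⟩
  have hpc : (Pool.Agent.Y821.DD.P41 Q).card ≤ pool.card + 32 := by
    have hsub : Pool.Agent.Y821.DD.P41 Q ⊆ pool ∪ range 32 := by
      intro p hp
      rw [mem_union, hpl, mem_filter, mem_range]
      by_cases h : 32 ≤ p
      · exact Or.inl ⟨hp, h⟩
      · exact Or.inr (by omega)
    have h1 := card_le_card hsub
    have h2 := card_union_le pool (range 32)
    rw [card_range] at h2
    omega
  have hcard : κ * L / 16 ≤ (Pool.Agent.Y821.DD.P41 Q).card := by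
    have h1 : L ^ 2 / 8 ≤ (Pool.Agent.Y821.DD.P41 Q).card * (2 * Real.log L) := by
      have h2 : ((Pool.Agent.Y821.DD.P41 Q).card : ℝ) * Real.log Q ≤
          (Pool.Agent.Y821.DD.P41 Q).card * (2 * Real.log L) :=
        mul_le_mul_of_nonneg_left hlogQ (Nat.cast_nonneg _)
      linarith
    have h3 : κ * L / 16 = (L ^ 2 / 8) / (2 * Real.log L) := by
      rw [hκd]; field_simp; norm_num
    rw [h3, div_le_iff₀ (by positivity)]
    exact h1
  have hsize : 20 * (524288 * k) + k ≤ pool.card := by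
    have h1 : ((20 * (524288 * k) + k : ℕ) : ℝ) ≤ (pool.card : ℝ) := by
      have h2 : ((Pool.Agent.Y821.DD.P41 Q).card : ℝ) ≤ pool.card + 32 := by exact_mod_cast hpc
      push_cast
      have h3 : κ * 144 ≤ κ * L := mul_le_mul_of_nonneg_left hL hκ0.le
      have h4 : (2 : ℝ) ^ 26 = 67108864 := by norm_num
      have h5 : (2 : ℝ) ^ 21 = 2097152 := by norm_num
      rw [h4] at hκ
      rw [h5] at hk1
      linarith
    exact_mod_cast h1
  have hXpow : Q ^ (k + 524288 * k) ≤ X := by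
    have h1 : ((Q ^ (k + 524288 * k) : ℕ) : ℝ) ≤ X := by
      push_cast
      have h2 : (Q : ℝ) ^ (k + 524288 * k) = Real.exp (((k + 524288 * k : ℕ) : ℝ) * Real.log Q) := by
        rw [Real.exp_nat_mul, Real.exp_log hQpos]
      rw [h2]
      have h3 : (X : ℝ) = Real.exp L := by rw [hLd, Real.exp_log hXR]
      rw [h3]
      apply Real.exp_le_exp.2
      push_cast
      have h4 : ((k : ℝ) + 524288 * k) ≤ κ / 2 := by
        have h5 : (2 : ℝ) ^ 21 = 2097152 := by norm_num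
        rw [h5] at hk1
        linarith
      calc ((k : ℝ) + 524288 * k) * Real.log Q ≤ (κ / 2) * (2 * Real.log L) :=
            mul_le_mul h4 hlogQ hlogQ0.le (by positivity)
        _ = κ * Real.log L := by ring
        _ = L := hκL
    exact_mod_cast h1
  have hQ1' : 1 ≤ Q := by
    have : (1 : ℝ) ≤ Q := hQ4.le
    exact_mod_cast this
  obtain ⟨e, he⟩ : ∃ e : ℝ, e = 1 / 2 ^ 26 * κ := ⟨_, rfl⟩
  rw [← he] at hBc ⊢
  have hke : 16 * e - 1 / 2 ≤ (k : ℝ) / 2 := by
    rw [he]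
    have : 16 * (1 / 2 ^ 26 * κ) = κ / 2 ^ 21 / 2 := by ring
    rw [this]
    linarith
  have he1 : 1 ≤ e := by
    rw [he]
    rw [one_div, ← div_eq_inv_mul, le_div_iff₀ (by positivity)]
    linarith
  have hm : 80 * (X : ℝ) < Real.exp (((524288 * k : ℕ) : ℝ) / 2 ^ 19) * (0.65 : ℝ) ^ k * B.card := by
    have h1 : (((524288 * k : ℕ) : ℝ) / 2 ^ 19) = k := by
      push_cast
      have h6 : (2 : ℝ) ^ 19 = 524288 := by norm_num
      rw [h6]
      field_simp
    rw [h1]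
    have h2 : Real.exp ((k : ℝ) / 2) ≤ Real.exp (k : ℝ) * (0.65 : ℝ) ^ k := by
      have h3 : Real.exp (k : ℝ) = (Real.exp 1) ^ k := by
        rw [← Real.exp_nat_mul, mul_one]
      have h4 : Real.exp ((k : ℝ) / 2) = (Real.exp (1 / 2)) ^ k := by
        rw [← Real.exp_nat_mul]; congr 1; ring
      rw [h3, h4, ← mul_pow]
      apply pow_le_pow_left₀ (Real.exp_pos _).le
      have h5 : Real.exp 1 = Real.exp (1 / 2) * Real.exp (1 / 2) := by
        rw [← Real.exp_add]; norm_num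
      have h6 := Real.exp_one_gt_d9
      have h7 : 1.6 ≤ Real.exp (1 / 2) := by
        by_contra hcon
        push Not at hcon
        nlinarith [Real.exp_pos (1 / 2)]
      rw [h5]
      nlinarith [Real.exp_pos (1 / 2)]
    have h3 : (80 : ℝ) < Real.exp ((k : ℝ) / 2) * Real.exp (-e) := by
      rw [← Real.exp_add]
      have h4 : (5 : ℝ) ≤ (k : ℝ) / 2 + -e := by linarith
      refine lt_of_lt_of_le ?_ (Real.exp_le_exp.2 h4)
      have h5 : Real.exp 5 = (Real.exp 1) ^ 5 := by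
        rw [← Real.exp_nat_mul]; norm_num
      rw [h5]
      have h6 : (2.7 : ℝ) ≤ Real.exp 1 := by linarith [Real.exp_one_gt_d9]
      calc (80 : ℝ) < 2.7 ^ 5 := by norm_num
        _ ≤ _ := pow_le_pow_left₀ (by norm_num) h6 5
    calc 80 * (X : ℝ) < (Real.exp ((k : ℝ) / 2) * Real.exp (-e)) * X :=
          mul_lt_mul_of_pos_right h3 hXR
      _ = Real.exp ((k : ℝ) / 2) * (X * Real.exp (-e)) := by ring
      _ ≤ (Real.exp (k : ℝ) * (0.65 : ℝ) ^ k) * B.card :=
          mul_le_mul h2 hBc (by positivity) (by positivity)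
  obtain ⟨P, hP, hPc, hPS⟩ := iterate X Q k (524288 * k) B pool hB hpool hsize hXpow hQ1' hm k le_rfl
  rw [hPc] at hPS
  have hPp : ∀ p ∈ P, p.Prime := fun p hp => (hpool p (hP hp)).1
  have hd : 0 < ∏ p ∈ P, p := Finset.prod_pos fun p h => (hPp p h).pos
  have hdX : ∏ p ∈ P, p ≤ X := by
    have h1 : ∏ p ∈ P, p ≤ Q ^ P.card := by
      rw [← Finset.prod_const]
      exact Finset.prod_le_prod' fun p hp => (hpool p (hP hp)).2.2.2
    refine h1.trans (le_trans ?_ hXpow)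
    apply Nat.pow_le_pow_right hQ1'
    omega
  obtain ⟨M, hM⟩ := pigeon X k B P hB hd hX0 hdX hPS
  refine ⟨M, le_trans ?_ hM⟩
  have h1 : Real.exp (-e) ≤ (B.card : ℝ) / X := by
    rw [le_div_iff₀ hXR]
    linarith
  have h2 : Real.exp ((k : ℝ) / 4) ≤ (1.3 : ℝ) ^ k := by
    have h4 : Real.exp ((k : ℝ) / 4) = (Real.exp (1 / 4)) ^ k := by
      rw [← Real.exp_nat_mul]; congr 1; ring
    rw [h4]
    apply pow_le_pow_left₀ (Real.exp_pos _).le
    have h5 : Real.exp 1 = Real.exp (1 / 4) ^ 4 := by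
      rw [← Real.exp_nat_mul]; norm_num
    have h6 := Real.exp_one_lt_d9
    by_contra hcon
    push Not at hcon
    have h7 : (1.3 : ℝ) ^ 4 < Real.exp (1 / 4) ^ 4 := pow_lt_pow_left₀ hcon (by norm_num) (by norm_num)
    rw [← h5] at h7
    norm_num at h7
    linarith
  have h3 : Real.exp e ≤ Real.exp ((k : ℝ) / 4) * Real.exp (-e) ^ 2 / 3 := by
    rw [le_div_iff₀ (by norm_num)]
    have h4 : (3 : ℝ) ≤ Real.exp 2 := by
      have h5 : Real.exp 2 = Real.exp 1 ^ 2 := by rw [← Real.exp_nat_mul]; norm_num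
      have h6 : (2.7 : ℝ) ≤ Real.exp 1 := by linarith [Real.exp_one_gt_d9]
      rw [h5]
      nlinarith
    calc Real.exp e * 3 ≤ Real.exp e * Real.exp 2 :=
          mul_le_mul_of_nonneg_left h4 (Real.exp_pos _).le
      _ = Real.exp (e + 2) := by rw [Real.exp_add]
      _ ≤ Real.exp ((k : ℝ) / 4 + (2 : ℕ) * (-e)) := by
          apply Real.exp_le_exp.2
          push_cast
          linarith
      _ = _ := by rw [Real.exp_add, Real.exp_nat_mul]
  refine h3.trans ?_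
  apply div_le_div_of_nonneg_right _ (by norm_num)
  apply mul_le_mul h2 _ (by positivity) (by positivity)
  exact pow_le_pow_left₀ (Real.exp_pos _).le h1 2

end Pool.Agent.P8H42.NS
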