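import Pool.Agent.P8H42.NS4

/-!
# Sets of integers near real multiples of squares
-/

set_option autoImplicit false

namespace Pool.Agent.P8H42.NS

open Finset Filter Topology

/-- the number of ordered pairs of elements of `A` with sum `n` -/
noncomputable def rep (A : Set ℕ) (n : ℕ) : ℕ :=
  {p : ℕ × ℕ | p.1 + p.2 = n ∧ p.1 ∈ A ∧ p.2 ∈ A}.ncard

/-- `exp (c log n / log log n)` -/
noncomputable def Z (c : ℝ) (n : ℕ) : ℝ := Real.exp (c * (Real.log n / Real.log (Real.log n)))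

lemma rep_finite (A : Set ℕ) (n : ℕ) : {p : ℕ × ℕ | p.1 + p.2 = n ∧ p.1 ∈ A ∧ p.2 ∈ A}.Finite := by
  apply Set.Finite.subset (Finset.finite_toSet (range (n + 1) ×ˢ range (n + 1)))
  rintro p ⟨h, _, _⟩
  rw [mem_coe, mem_product, mem_range, mem_range]
  constructor <;> omega

lemma rep_mono {A B : Set ℕ} (h : A ⊆ B) (n : ℕ) : rep A n ≤ rep B n := by
  unfold rep
  apply Set.ncard_le_ncard _ (rep_finite B n)
  rintro p ⟨h1, h2, h3⟩
  exact ⟨h1, h h2, h h3⟩

lemma Z_pos (c : ℝ) (n : ℕ) : 0 < Z c n := Real.exp_pos _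

lemma Z_pow (c : ℝ) (j n : ℕ) : Z c n ^ j = Z (j * c) n := by
  unfold Z
  rw [← Real.exp_nat_mul, mul_assoc]

lemma Z_tendsto {c : ℝ} (hc : 0 < c) : Tendsto (fun n => Z c n) atTop atTop :=
  Real.tendsto_exp_atTop.comp (tendsto_kappa.const_mul_atTop hc)

/-- integers in a short interval -/
lemma card_near (F : Finset ℕ) (t z : ℝ) (hz : 0 ≤ z) (h : ∀ n ∈ F, |(n : ℝ) - t| ≤ z) :
    (F.card : ℝ) ≤ 2 * z + 1 := by
  rcases F.eq_empty_or_nonempty with h0 | h0
  · rw [h0]; simp; linarith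
  · obtain ⟨a, ha⟩ : ∃ a, a = F.min' h0 := ⟨_, rfl⟩
    have haF : a ∈ F := by rw [ha]; exact Finset.min'_mem _ _
    have hsub : F ⊆ Icc a (a + ⌊2 * z⌋₊) := by
      intro n hn
      have h1 : a ≤ n := by rw [ha]; exact Finset.min'_le _ _ hn
      rw [mem_Icc]
      refine ⟨h1, ?_⟩
      have h2 := abs_le.1 (h n hn)
      have h3 := abs_le.1 (h a haF)
      have h4 : n - a ≤ ⌊2 * z⌋₊ := by
        apply Nat.le_floor
        rw [Nat.cast_sub h1]
        linarith [h2.2, h3.1]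
      omega
    have h1 := card_le_card hsub
    rw [Nat.card_Icc] at h1
    have h2 : F.card ≤ ⌊2 * z⌋₊ + 1 := by omega
    have h3 : (F.card : ℝ) ≤ ⌊2 * z⌋₊ + 1 := by exact_mod_cast h2
    have h4 := Nat.floor_le (show 0 ≤ 2 * z by linarith)
    linarith

/-- the constant -/
noncomputable def c0 : ℝ := 1 / 2 ^ 30

theorem near : ∀ᶠ N : ℕ in atTop, ∀ (A : Set ℕ) (α : ℝ), 1 / Z c0 N ≤ α →
    Real.sqrt N / Z c0 N ≤
      ({n : ℕ | n ∈ A ∧ 1 ≤ n ∧ n ≤ N ∧ ∃ x : ℕ, |(n : ℝ) - α * (x : ℝ) ^ 2| ≤ Z c0 N}.ncard : ℝ) →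
    ∃ m ≤ 2 * N, Z c0 N ≤ rep A m := by
  classical
  obtain ⟨X₀, hX₀⟩ := eventually_atTop.1 core
  have hc0 : 0 < c0 := by unfold c0; positivity
  have hlog : Tendsto (fun X : ℕ => Real.log X) atTop atTop :=
    Real.tendsto_log_atTop.comp tendsto_natCast_atTop_atTop
  filter_upwards [(Z_tendsto hc0).eventually_ge_atTop 2, hlog.eventually_ge_atTop 144,
    eventually_ge_atTop (X₀ ^ 2), eventually_ge_atTop 1] with N hz2 hL hNX hN1
  intro A α hα hS
  obtain ⟨z, hz⟩ : ∃ z, z = Z c0 N := ⟨_, rfl⟩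
  rw [← hz] at hz2 hα hS ⊢
  have hNR : (1 : ℝ) ≤ N := by exact_mod_cast hN1
  have hz0 : 0 < z := by linarith
  have hα0 : 0 < α := lt_of_lt_of_le (by positivity) hα
  -- size of z
  obtain ⟨L, hLd⟩ : ∃ L, L = Real.log N := ⟨_, rfl⟩
  rw [← hLd] at hL
  have hloglog : 1 ≤ Real.log L := by
    rw [Real.le_log_iff_exp_le (by linarith)]
    have := Real.exp_one_lt_d9
    linarith
  have hzN : 8 * z ≤ N := by
    have h1 : z ≤ Real.exp (L / 2) := by
      rw [hz, Z, ← hLd]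
      apply Real.exp_le_exp.2
      have h2 : L / Real.log L ≤ L := div_le_self (by linarith) hloglog
      have h3 : c0 ≤ 1 / 2 := by unfold c0; norm_num
      have h4 : 0 ≤ L / Real.log L := by positivity
      nlinarith
    have h2 : (8 : ℝ) ≤ Real.exp (L / 2) := by
      have := Real.add_one_le_exp (L / 2)
      linarith
    have h3 : (N : ℝ) = Real.exp (L / 2) * Real.exp (L / 2) := by
      rw [← Real.exp_add, add_halves, hLd, Real.exp_log (by linarith)]
    rw [h3]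
    exact mul_le_mul h2 h1 hz0.le (by positivity)
  obtain ⟨q, hq⟩ : ∃ q, q = Real.sqrt (2 * N * z) := ⟨_, rfl⟩
  have hq2 : q ^ 2 = 2 * N * z := by rw [hq]; exact Real.sq_sqrt (by positivity)
  have hq0 : 0 ≤ q := by rw [hq]; exact Real.sqrt_nonneg _
  obtain ⟨s, hs⟩ : ∃ s, s = Real.sqrt N := ⟨_, rfl⟩
  have hs2 : s ^ 2 = N := by rw [hs]; exact Real.sq_sqrt (by positivity)
  have hs0 : 0 ≤ s := by rw [hs]; exact Real.sqrt_nonneg _
  have hs1 : 1 ≤ s := by nlinarith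
  rw [← hs] at hS
  have hsq : s ≤ q := by
    apply le_of_sq_le_sq _ hq0
    rw [hs2, hq2]
    nlinarith
  obtain ⟨X, hX⟩ : ∃ X : ℕ, X = ⌊q⌋₊ + 1 := ⟨_, rfl⟩
  have hX1 : q < X := by rw [hX]; push_cast; exact Nat.lt_floor_add_one _
  have hX2 : (X : ℝ) ≤ 2 * q := by
    rw [hX]; push_cast
    have := Nat.floor_le hq0
    linarith
  have hXN : (X : ℝ) ≤ N := by
    refine hX2.trans ?_
    apply le_of_sq_le_sq _ (by linarith)
    rw [mul_pow, hq2]
    nlinarith
  have hXX₀ : X₀ ≤ X := by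
    have h1 : (X₀ : ℝ) ≤ s := by
      apply le_of_sq_le_sq _ hs0
      rw [hs2]
      exact_mod_cast hNX
    have h2 : (X₀ : ℝ) ≤ X := by linarith
    exact_mod_cast h2
  have hXpos : (0 : ℝ) < X := by linarith
  -- comparison of the exponents
  obtain ⟨e, he⟩ : ∃ e, e = 1 / 2 ^ 26 * (Real.log X / Real.log (Real.log X)) := ⟨_, rfl⟩
  have hez : z ^ 8 ≤ Real.exp e := by
    rw [hz, Z_pow]
    unfold Z
    rw [← hLd]
    apply Real.exp_le_exp.2
    rw [he]
    have hlX : L / 2 ≤ Real.log X := by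
      have h1 : Real.log s ≤ Real.log X := Real.log_le_log (by linarith) (by linarith)
      have h2 : L = 2 * Real.log s := by
        rw [hLd, ← hs2, Real.log_pow]; norm_num
      linarith
    have hlX2 : Real.log X ≤ L := by rw [hLd]; exact Real.log_le_log hXpos hXN
    have hllX : Real.log (Real.log X) ≤ Real.log L := Real.log_le_log (by linarith) hlX2
    have hllX0 : 0 < Real.log (Real.log X) := Real.log_pos (by linarith)
    have h3 : (L / Real.log L) / 2 ≤ Real.log X / Real.log (Real.log X) := by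
      rw [div_div, div_le_div_iff₀ (by linarith) hllX0]
      calc L * Real.log (Real.log X) ≤ L * Real.log L := mul_le_mul_of_nonneg_left hllX (by linarith)
        _ ≤ (2 * Real.log X) * Real.log L := mul_le_mul_of_nonneg_right (by linarith) (by linarith)
        _ = _ := by ring
    unfold c0
    push_cast
    linarith
  have hpow : ∀ j : ℕ, 2 ^ j ≤ z ^ j := fun j => pow_le_pow_left₀ (by norm_num) hz2 j
  -- the finite set
  obtain ⟨S, hSd⟩ : ∃ S : Finset ℕ, S = (Icc 1 N).filter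
    (fun n => n ∈ A ∧ ∃ x : ℕ, |(n : ℝ) - α * (x : ℝ) ^ 2| ≤ z) := ⟨_, rfl⟩
  have hSn : {n : ℕ | n ∈ A ∧ 1 ≤ n ∧ n ≤ N ∧ ∃ x : ℕ, |(n : ℝ) - α * (x : ℝ) ^ 2| ≤ z}.ncard = S.card := by
    rw [← Set.ncard_coe_finset]
    congr 1
    ext n
    rw [hSd]
    simp only [Set.mem_ofPred_eq, mem_coe, mem_filter, mem_Icc]
    tauto
  rw [hSn] at hS
  have hex : ∀ n ∈ S, ∃ x : ℕ, |(n : ℝ) - α * (x : ℝ) ^ 2| ≤ z := by
    intro n hn
    rw [hSd, mem_filter] at hn
    exact hn.2.2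
  choose! f hf using hex
  have hSN : ∀ n ∈ S, n ≤ N := by
    intro n hn
    rw [hSd, mem_filter, mem_Icc] at hn
    exact hn.1.2
  have hSA : ∀ n ∈ S, n ∈ A := by
    intro n hn
    rw [hSd, mem_filter] at hn
    exact hn.2.1
  obtain ⟨B, hB⟩ : ∃ B : Finset ℕ, B = S.image f := ⟨_, rfl⟩
  have hBX : ∀ b ∈ B, b < X := by
    intro b hb
    rw [hB, mem_image] at hb
    obtain ⟨n, hn, rfl⟩ := hb
    have h1 := abs_le.1 (hf n hn)
    have h2 : (n : ℝ) ≤ N := by exact_mod_cast hSN n hn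
    have h3 : α * (f n : ℝ) ^ 2 ≤ 2 * N := by linarith [h1.1]
    have h4 : (f n : ℝ) ^ 2 ≤ q ^ 2 := by
      rw [hq2]
      have h5 : 1 / z * (f n : ℝ) ^ 2 ≤ 2 * N :=
        (mul_le_mul_of_nonneg_right hα (sq_nonneg _)).trans h3
      rw [one_div, inv_mul_le_iff₀ hz0] at h5
      linarith
    have h5 : (f n : ℝ) ≤ q := le_of_sq_le_sq h4 hq0
    have h6 : (f n : ℝ) < X := by linarith
    exact_mod_cast h6
  have hSB : (S.card : ℝ) ≤ B.card * (2 * z + 1) := by
    have h1 : S.card = ∑ b ∈ B, (S.filter (fun n => f n = b)).card := by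
      apply Finset.card_eq_sum_card_fiberwise
      intro n hn
      rw [hB, coe_image]
      exact Set.mem_image_of_mem _ hn
    rw [h1]
    push_cast
    have h2 : ∀ b ∈ B, ((S.filter (fun n => f n = b)).card : ℝ) ≤ 2 * z + 1 := by
      intro b _
      apply card_near _ (α * (b : ℝ) ^ 2) z hz0.le
      intro n hn
      rw [mem_filter] at hn
      have := hf n hn.1
      rwa [hn.2] at this
    refine (Finset.sum_le_sum h2).trans ?_
    rw [Finset.sum_const, nsmul_eq_mul]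
  have hBc : (X : ℝ) * Real.exp (-e) ≤ B.card := by
    have h1 : s ≤ B.card * (3 * z ^ 2) := by
      have h2 : s / z ≤ B.card * (2 * z + 1) := hS.trans hSB
      rw [div_le_iff₀ hz0] at h2
      refine h2.trans ?_
      have h3 : (2 * z + 1) * z ≤ 3 * z ^ 2 := by nlinarith
      calc (B.card : ℝ) * (2 * z + 1) * z = B.card * ((2 * z + 1) * z) := by ring
        _ ≤ _ := mul_le_mul_of_nonneg_left h3 (Nat.cast_nonneg _)
    have h4 : q ≤ s * (2 * z) := by
      apply le_of_sq_le_sq _ (by positivity)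
      rw [hq2, mul_pow, hs2]
      have : (N : ℝ) * (2 * z) ^ 2 = 2 * N * z * (2 * z) := by ring
      rw [this]
      exact le_mul_of_one_le_right (by positivity) (by linarith)
    rw [Real.exp_neg, ← div_eq_mul_inv, div_le_iff₀ (Real.exp_pos _)]
    have h5 := hpow 5
    calc (X : ℝ) ≤ 2 * q := hX2
      _ ≤ 2 * (s * (2 * z)) := by linarith
      _ = (4 * z) * s := by ring
      _ ≤ (4 * z) * (B.card * (3 * z ^ 2)) := mul_le_mul_of_nonneg_left h1 (by positivity)
      _ = B.card * z ^ 3 * 12 := by ring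
      _ ≤ B.card * z ^ 3 * z ^ 5 := by
          apply mul_le_mul_of_nonneg_left _ (by positivity)
          linarith
      _ = B.card * z ^ 8 := by ring
      _ ≤ B.card * Real.exp e := mul_le_mul_of_nonneg_left hez (Nat.cast_nonneg _)
  rw [he] at hBc hez
  obtain ⟨M, hM⟩ := hX₀ X hXX₀ B hBX hBc
  -- the section
  have hg : ∀ b ∈ B, ∃ n ∈ S, f n = b := by
    intro b hb
    rw [hB, mem_image] at hb
    exact hb
  choose! g hg1 hg2 using hg
  obtain ⟨W, hW⟩ : ∃ W : Finset (ℕ × ℕ), W = (B ×ˢ B).filter (fun x => x.1 ^ 2 + x.2 ^ 2 = M) :=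
    ⟨_, rfl⟩
  rw [← hW] at hM
  have hWc : z ^ 8 ≤ (W.card : ℝ) := hez.trans hM
  have hWB : ∀ w ∈ W, w.1 ∈ B ∧ w.2 ∈ B ∧ w.1 ^ 2 + w.2 ^ 2 = M := by
    intro w hw
    rw [hW, mem_filter, mem_product] at hw
    exact ⟨hw.1.1, hw.1.2, hw.2⟩
  obtain ⟨F, hF⟩ : ∃ F : Finset ℕ, F = W.image (fun w => g w.1 + g w.2) := ⟨_, rfl⟩
  have hFc : (F.card : ℝ) ≤ 2 * (2 * z) + 1 := by
    apply card_near F (α * M) (2 * z) (by positivity)
    intro n hn
    rw [hF, mem_image] at hn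
    obtain ⟨w, hw, rfl⟩ := hn
    obtain ⟨h1, h2, h3⟩ := hWB w hw
    have a1 := hf _ (hg1 _ h1)
    have a2 := hf _ (hg1 _ h2)
    rw [hg2 _ h1] at a1
    rw [hg2 _ h2] at a2
    have h4 : (M : ℝ) = (w.1 : ℝ) ^ 2 + (w.2 : ℝ) ^ 2 := by exact_mod_cast h3.symm
    rw [h4]
    push_cast
    have b1 := abs_le.1 a1
    have b2 := abs_le.1 a2
    rw [abs_le]
    constructor <;> nlinarith [b1.1, b1.2, b2.1, b2.2]
  obtain ⟨m, hm, hmc⟩ : ∃ m ∈ F, z ≤ ((W.filter (fun w => g w.1 + g w.2 = m)).card : ℝ) := by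
    by_contra hcon
    push Not at hcon
    have h1 : W.card = ∑ m ∈ F, (W.filter (fun w => g w.1 + g w.2 = m)).card := by
      apply Finset.card_eq_sum_card_fiberwise
      intro w hw
      rw [hF, coe_image]
      exact ⟨w, hw, rfl⟩
    have h2 : (W.card : ℝ) ≤ F.card * z := by
      rw [h1]
      push_cast
      refine (Finset.sum_le_sum fun m hm => (hcon m hm).le).trans ?_
      rw [Finset.sum_const, nsmul_eq_mul]
    have h3 : (W.card : ℝ) ≤ (2 * (2 * z) + 1) * z :=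
      h2.trans (mul_le_mul_of_nonneg_right hFc hz0.le)
    have h4 := hpow 6
    have h5 : (2 * (2 * z) + 1) * z ≤ 5 * z ^ 2 := by nlinarith
    have h6 : 5 * z ^ 2 < z ^ 8 := by
      calc 5 * z ^ 2 < 2 ^ 6 * z ^ 2 := by
            apply mul_lt_mul_of_pos_right (by norm_num) (by positivity)
        _ ≤ z ^ 6 * z ^ 2 := mul_le_mul_of_nonneg_right h4 (by positivity)
        _ = z ^ 8 := by ring
    linarith
  refine ⟨m, ?_, ?_⟩
  · rw [hF, mem_image] at hm
    obtain ⟨w, hw, rfl⟩ := hm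
    obtain ⟨h1, h2, _⟩ := hWB w hw
    have a1 := hSN _ (hg1 _ h1)
    have a2 := hSN _ (hg1 _ h2)
    omega
  · refine hmc.trans ?_
    have h1 : (W.filter (fun w => g w.1 + g w.2 = m)).card ≤ rep A m := by
      have hinj : Set.InjOn (fun w : ℕ × ℕ => (g w.1, g w.2))
          (W.filter (fun w => g w.1 + g w.2 = m) : Finset (ℕ × ℕ)) := by
        intro w hw v hv hwv
        rw [mem_coe, mem_filter] at hw hv
        obtain ⟨h1, h2, _⟩ := hWB w hw.1
        obtain ⟨h3, h4, _⟩ := hWB v hv.1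
        have e1 : g w.1 = g v.1 := congrArg Prod.fst hwv
        have e2 : g w.2 = g v.2 := congrArg Prod.snd hwv
        refine Prod.ext ?_ ?_
        · rw [← hg2 _ h1, ← hg2 _ h3, e1]
        · rw [← hg2 _ h2, ← hg2 _ h4, e2]
      rw [← Finset.card_image_of_injOn hinj, ← Set.ncard_coe_finset]
      unfold rep
      apply Set.ncard_le_ncard _ (rep_finite A m)
      intro p hp
      rw [mem_coe, mem_image] at hp
      obtain ⟨w, hw, rfl⟩ := hp
      rw [mem_filter] at hw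
      obtain ⟨h1, h2, _⟩ := hWB w hw.1
      exact ⟨hw.2, hSA _ (hg1 _ h1), hSA _ (hg1 _ h2)⟩
    exact_mod_cast h1

end Pool.Agent.P8H42.NS
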