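import Pool.Agent.P8H42.NS5

/-!
# Density thresholds near rational multiples of squares
-/

set_option autoImplicit false

namespace Pool.Agent.P8H42.NS

open Finset Filter Topology

/-- the integers `n` with `|b n - a x²| ≤ z` for some integers `1 ≤ a, b ≤ z` and `x`, where
`z = exp (c log n / log log n)` -/
def V (c : ℝ) : Set ℕ :=
  {n : ℕ | ∃ a b x : ℕ, 1 ≤ a ∧ 1 ≤ b ∧ (a : ℝ) ≤ Z c n ∧ (b : ℝ) ≤ Z c n ∧
    |(b : ℝ) * n - a * (x : ℝ) ^ 2| ≤ Z c n}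

/-- `|A ∩ [1, N]| ≫ √N / g N` -/
def Dense (A : Set ℕ) (g : ℕ → ℝ) : Prop :=
  ∃ C : ℝ, 0 < C ∧ ∀ᶠ N : ℕ in atTop, Real.sqrt N / g N ≤ C * ((A ∩ Set.Icc 1 N).ncard : ℝ)

/-- the representation function is unbounded -/
def Unbdd (A : Set ℕ) : Prop := ∀ K : ℕ, ∃ n : ℕ, K ≤ rep A n

/-- `g` forces unbounded representations -/
def Forces (g : ℕ → ℝ) : Prop := ∀ A : Set ℕ, Dense A g → Unbdd A

lemma kappa_mono : ∀ᶠ N : ℕ in atTop, ∀ n ≤ N,
    Real.log n / Real.log (Real.log n) ≤ Real.log N / Real.log (Real.log N) := by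
  classical
  obtain ⟨K, hK⟩ : ∃ K : ℝ, ∀ n ∈ range 16, Real.log (n : ℕ) / Real.log (Real.log n) ≤ K := by
    obtain ⟨K, hK⟩ := (Finset.finite_toSet (range 16)).image
      (fun n : ℕ => Real.log n / Real.log (Real.log n)) |>.bddAbove
    refine ⟨K, fun n hn => hK ⟨n, hn, rfl⟩⟩
  filter_upwards [tendsto_kappa.eventually_ge_atTop K, eventually_ge_atTop 16] with N hN h16
  intro n hn
  by_cases h : n < 16
  · exact (hK n (mem_range.2 h)).trans hN
  · push Not at h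
    have he : ∀ m : ℕ, 16 ≤ m → Real.exp 1 < Real.log m := by
      intro m hm
      have h1 : (16 : ℝ) ≤ m := by exact_mod_cast hm
      have h2 : Real.log 16 ≤ Real.log m := Real.log_le_log (by norm_num) h1
      have h3 : Real.log 16 = 4 * Real.log 2 := by
        rw [show (16 : ℝ) = 2 ^ 4 by norm_num, Real.log_pow]; norm_num
      have h4 := Real.log_two_gt_d9
      have h5 := Real.exp_one_lt_d9
      linarith
    have hn1 := he n h
    have hN1 := he N h16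
    have hle : Real.log n ≤ Real.log N :=
      Real.log_le_log (by exact_mod_cast (by omega : 0 < n)) (by exact_mod_cast hn)
    have hanti := Real.log_div_self_antitoneOn (Set.mem_ofPred_eq ▸ hn1.le) (Set.mem_ofPred_eq ▸ hN1.le) hle
    simp only at hanti
    have e1 := Real.exp_pos 1
    have e2 : (1 : ℝ) < Real.exp 1 := by
      have := Real.add_one_le_exp (1 : ℝ)
      linarith
    have l1 : 0 < Real.log (Real.log n) := Real.log_pos (by linarith)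
    have l2 : 0 < Real.log (Real.log N) := Real.log_pos (by linarith)
    rw [div_le_div_iff₀ (by linarith) (by linarith)] at hanti
    rw [div_le_div_iff₀ l1 l2]
    linarith

lemma Z_mono {c : ℝ} (hc : 0 < c) : ∀ᶠ N : ℕ in atTop, ∀ n ≤ N, Z c n ≤ Z c N := by
  filter_upwards [kappa_mono] with N hN n hn
  exact Real.exp_le_exp.2 (mul_le_mul_of_nonneg_left (hN n hn) hc.le)

/-- the final constant -/
noncomputable def c1 : ℝ := c0 / 8

lemma c1_pos : 0 < c1 := by unfold c1 c0; positivity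

lemma Z_c0 (N : ℕ) : Z c0 N = Z c1 N ^ 8 := by
  rw [Z_pow]
  congr 1
  unfold c1
  push_cast
  ring

lemma fin_set (A : Set ℕ) (N : ℕ) (p : ℕ → Prop) :
    {n : ℕ | n ∈ A ∧ 1 ≤ n ∧ n ≤ N ∧ p n}.Finite := by
  apply Set.Finite.subset (Set.finite_Icc 1 N)
  rintro n ⟨_, h1, h2, _⟩
  exact ⟨h1, h2⟩

theorem part1 : ∀ᶠ N : ℕ in atTop, ∀ (A : Set ℕ) (α : ℝ), 1 / Z c1 N ≤ α →
    Real.sqrt N / Z c1 N ≤
      ({n : ℕ | n ∈ A ∧ 1 ≤ n ∧ n ≤ N ∧ ∃ x : ℕ, |(n : ℝ) - α * (x : ℝ) ^ 2| ≤ Z c1 N}.ncard : ℝ) →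
    ∃ m ≤ 2 * N, Z c1 N ≤ rep A m := by
  filter_upwards [near, (Z_tendsto c1_pos).eventually_ge_atTop 1] with N hN hz1
  intro A α hα hS
  have hzz : Z c1 N ≤ Z c0 N := by
    rw [Z_c0]
    exact le_self_pow₀ hz1 (by norm_num)
  obtain ⟨m, hm, hr⟩ := hN A α
    ((one_div_le_one_div_of_le (Z_pos _ _) hzz).trans hα)
    (by
      have h1 : Real.sqrt N / Z c0 N ≤ Real.sqrt N / Z c1 N :=
        div_le_div_of_nonneg_left (Real.sqrt_nonneg _) (Z_pos _ _) hzz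
      refine h1.trans (hS.trans ?_)
      have h2 := Set.ncard_le_ncard (s := {n : ℕ | n ∈ A ∧ 1 ≤ n ∧ n ≤ N ∧
          ∃ x : ℕ, |(n : ℝ) - α * (x : ℝ) ^ 2| ≤ Z c1 N})
        (t := {n : ℕ | n ∈ A ∧ 1 ≤ n ∧ n ≤ N ∧ ∃ x : ℕ, |(n : ℝ) - α * (x : ℝ) ^ 2| ≤ Z c0 N})
        (by
          rintro n ⟨h1, h2, h3, x, hx⟩
          exact ⟨h1, h2, h3, x, hx.trans hzz⟩) (fin_set _ _ _)
      exact_mod_cast h2)
  exact ⟨m, hm, hzz.trans hr⟩

theorem part2 : ∀ᶠ N : ℕ in atTop, ∀ A : Set ℕ,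
    Real.sqrt N / Z c1 N ^ 2 ≤ ((A ∩ V c1 ∩ Set.Icc 1 N).ncard : ℝ) →
    ∃ m ≤ 2 * N, Z c1 N ≤ rep A m := by
  classical
  filter_upwards [near, (Z_tendsto c1_pos).eventually_ge_atTop 1, Z_mono c1_pos] with N hN hz1 hmono
  intro A hS
  have hzz := Z_c0 N
  obtain ⟨z, hz⟩ : ∃ z, z = Z c1 N := ⟨_, rfl⟩
  rw [← hz] at hz1 hzz hS hmono ⊢
  have hz0 : 0 < z := by linarith
  obtain ⟨S, hSd⟩ : ∃ S : Finset ℕ, S = (Icc 1 N).filter (fun n => n ∈ A ∧ n ∈ V c1) := ⟨_, rfl⟩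
  have hSn : (A ∩ V c1 ∩ Set.Icc 1 N).ncard = S.card := by
    rw [← Set.ncard_coe_finset]
    congr 1
    ext n
    rw [hSd]
    simp only [Set.mem_inter_iff, Set.mem_Icc, mem_coe, mem_filter, mem_Icc]
    tauto
  rw [hSn] at hS
  have hex : ∀ n ∈ S, ∃ r : ℕ × ℕ, 1 ≤ r.1 ∧ 1 ≤ r.2 ∧ (r.1 : ℝ) ≤ z ∧ (r.2 : ℝ) ≤ z ∧
      ∃ x : ℕ, |(r.2 : ℝ) * n - r.1 * (x : ℝ) ^ 2| ≤ z := by
    intro n hn
    rw [hSd, mem_filter, mem_Icc] at hn
    obtain ⟨a, b, x, h1, h2, h3, h4, h5⟩ := hn.2.2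
    have h6 := hmono n hn.1.2
    exact ⟨(a, b), h1, h2, h3.trans h6, h4.trans h6, x, h5.trans h6⟩
  choose! f hf using hex
  obtain ⟨R, hR⟩ : ∃ R : Finset (ℕ × ℕ), R = (Icc 1 ⌊z⌋₊) ×ˢ (Icc 1 ⌊z⌋₊) := ⟨_, rfl⟩
  have hRc : (R.card : ℝ) ≤ z ^ 2 := by
    rw [hR, card_product, Nat.card_Icc]
    have h1 : ⌊z⌋₊ + 1 - 1 = ⌊z⌋₊ := by omega
    rw [h1]
    push_cast
    have h2 := Nat.floor_le hz0.le
    nlinarith [Nat.cast_nonneg (α := ℝ) ⌊z⌋₊]
  have hRm : ∀ n ∈ S, f n ∈ R := by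
    intro n hn
    obtain ⟨h1, h2, h3, h4, _⟩ := hf n hn
    rw [hR, mem_product, mem_Icc, mem_Icc]
    exact ⟨⟨h1, Nat.le_floor h3⟩, ⟨h2, Nat.le_floor h4⟩⟩
  obtain ⟨s, hs⟩ : ∃ s, s = Real.sqrt N := ⟨_, rfl⟩
  have hs0 : 0 ≤ s := by rw [hs]; exact Real.sqrt_nonneg _
  rw [← hs] at hS
  by_cases hSe : S = ∅
  · -- degenerate case
    rw [hSe, card_empty, Nat.cast_zero, div_le_iff₀ (by positivity), zero_mul] at hS
    have hs00 : s = 0 := le_antisymm hS hs0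
    obtain ⟨m, hm, hr⟩ := hN A 1
      (by
        rw [div_le_one (Z_pos _ _), hzz]
        exact one_le_pow₀ hz1)
      (by rw [← hs, hs00, zero_div]; positivity)
    refine ⟨m, hm, le_trans ?_ hr⟩
    rw [hzz]
    exact le_self_pow₀ hz1 (by norm_num)
  have hSne : S.Nonempty := Finset.nonempty_iff_ne_empty.2 hSe
  obtain ⟨r, hrR, hrc⟩ : ∃ r ∈ R, s / z ^ 4 ≤ ((S.filter (fun n => f n = r)).card : ℝ) := by
    by_contra hcon
    push Not at hcon
    have h1 : S.card = ∑ r ∈ R, (S.filter (fun n => f n = r)).card := by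
      apply Finset.card_eq_sum_card_fiberwise
      intro n hn
      exact hRm n hn
    have hRne : R.Nonempty := by
      obtain ⟨n, hn⟩ := hSne
      exact ⟨_, hRm n hn⟩
    have h2 : (S.card : ℝ) < R.card * (s / z ^ 4) := by
      rw [h1]
      push_cast
      refine (Finset.sum_lt_sum_of_nonempty hRne hcon).trans_le ?_
      rw [Finset.sum_const, nsmul_eq_mul]
    have h3 : (R.card : ℝ) * (s / z ^ 4) ≤ z ^ 2 * (s / z ^ 4) :=
      mul_le_mul_of_nonneg_right hRc (by positivity)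
    have h4 : z ^ 2 * (s / z ^ 4) = s / z ^ 2 := by field_simp
    linarith
  rw [hR, mem_product, mem_Icc, mem_Icc] at hrR
  have hr1 : (1 : ℝ) ≤ r.1 := by exact_mod_cast hrR.1.1
  have hr2 : (1 : ℝ) ≤ r.2 := by exact_mod_cast hrR.2.1
  have hr3 : (r.2 : ℝ) ≤ z := (Nat.le_floor_iff hz0.le).1 hrR.2.2
  have hz8 : z ≤ z ^ 8 := le_self_pow₀ hz1 (by norm_num)
  obtain ⟨m, hm, hmr⟩ := hN A (r.1 / r.2)
    (by
      rw [hzz, div_le_div_iff₀ (by positivity) (by linarith)]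
      nlinarith)
    (by
      have h1 : Real.sqrt N / Z c0 N ≤ s / z ^ 4 := by
        rw [hzz, ← hs]
        apply div_le_div_of_nonneg_left hs0 (by positivity)
        exact pow_le_pow_right₀ hz1 (by norm_num)
      refine h1.trans (hrc.trans ?_)
      rw [← Set.ncard_coe_finset]
      have h2 := Set.ncard_le_ncard (s := ((S.filter (fun n => f n = r) : Finset ℕ) : Set ℕ))
        (t := {n : ℕ | n ∈ A ∧ 1 ≤ n ∧ n ≤ N ∧
          ∃ x : ℕ, |(n : ℝ) - (r.1 / r.2 : ℝ) * (x : ℝ) ^ 2| ≤ Z c0 N})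
        (by
          intro n hn
          rw [mem_coe, mem_filter] at hn
          have hn2 := hn.1
          rw [hSd, mem_filter, mem_Icc] at hn2
          obtain ⟨_, _, _, _, x, hx⟩ := hf n hn.1
          rw [hn.2] at hx
          refine ⟨hn2.2.1, hn2.1.1, hn2.1.2, x, ?_⟩
          rw [hzz]
          have h3 : (n : ℝ) - (r.1 / r.2 : ℝ) * (x : ℝ) ^ 2 =
              ((r.2 : ℝ) * n - r.1 * (x : ℝ) ^ 2) / r.2 := by
            field_simp
          rw [h3, abs_div, abs_of_pos (show (0 : ℝ) < r.2 by linarith), div_le_iff₀ (by linarith)]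
          calc |(r.2 : ℝ) * n - r.1 * (x : ℝ) ^ 2| ≤ z := hx
            _ ≤ z ^ 8 := hz8
            _ ≤ z ^ 8 * r.2 := le_mul_of_one_le_right (by positivity) hr2)
        (fin_set _ _ _)
      exact_mod_cast h2)
  refine ⟨m, hm, le_trans ?_ hmr⟩
  rw [hzz]
  exact hz8

/-- values of quadratic polynomials with small coefficients -/
theorem part3 : ∀ᶠ n : ℕ in atTop, ∀ u v w x : ℤ, 1 ≤ u → (u : ℝ) ≤ Z (c1 / 3) n →
    |(v : ℝ)| ≤ Z (c1 / 3) n → |(w : ℝ)| ≤ Z (c1 / 3) n → (n : ℤ) = u * x ^ 2 + v * x + w →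
    n ∈ V c1 := by
  have h3 : 0 < c1 / 3 := by have := c1_pos; positivity
  filter_upwards [(Z_tendsto h3).eventually_ge_atTop 5] with n hn
  intro u v w x hu1 hu2 hv hw hnx
  have hpow : Z c1 n = Z (c1 / 3) n ^ 3 := by
    rw [Z_pow]
    congr 1
    push_cast
    ring
  unfold V
  rw [Set.mem_ofPred_eq]
  obtain ⟨t, ht⟩ : ∃ t, t = Z (c1 / 3) n := ⟨_, rfl⟩
  rw [hpow]
  rw [← ht] at hn hu2 hv hw ⊢
  refine ⟨1, (4 * u).toNat, (2 * u * x + v).natAbs, le_rfl, ?_, ?_, ?_, ?_⟩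
  · omega
  · push_cast
    nlinarith [sq_nonneg t]
  · have h1 : (((4 * u).toNat : ℕ) : ℝ) = 4 * u := by
      have : (((4 * u).toNat : ℕ) : ℤ) = 4 * u := Int.toNat_of_nonneg (by omega)
      exact_mod_cast this
    rw [h1]
    nlinarith [sq_nonneg t]
  · have h1 : (((4 * u).toNat : ℕ) : ℝ) = 4 * u := by
      have : (((4 * u).toNat : ℕ) : ℤ) = 4 * u := Int.toNat_of_nonneg (by omega)
      exact_mod_cast this
    have h2 : (((2 * u * x + v).natAbs : ℕ) : ℝ) ^ 2 = (2 * (u : ℝ) * x + v) ^ 2 := by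
      have : (((2 * u * x + v).natAbs : ℕ) : ℤ) ^ 2 = (2 * u * x + v) ^ 2 := Int.natAbs_sq _
      have h9 : ((((2 * u * x + v).natAbs : ℕ) : ℤ) : ℝ) ^ 2 = (((2 * u * x + v) : ℤ) : ℝ) ^ 2 := by
        rw [← Int.cast_pow, this, Int.cast_pow]
      rw [Int.cast_natCast] at h9
      rw [h9]
      push_cast
      ring
    have h4 : (n : ℝ) = u * (x : ℝ) ^ 2 + v * x + w := by exact_mod_cast hnx
    rw [h1, h2, Nat.cast_one, one_mul, h4]
    have h5 : 4 * (u : ℝ) * (u * (x : ℝ) ^ 2 + v * x + w) - (2 * (u : ℝ) * x + v) ^ 2 =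
        4 * u * w - v ^ 2 := by ring
    rw [h5]
    have hu0 : (0 : ℝ) ≤ u := by exact_mod_cast (by omega : (0 : ℤ) ≤ u)
    have h6 : |4 * (u : ℝ) * w| ≤ 4 * t * t := by
      rw [abs_mul, abs_of_nonneg (by linarith : (0 : ℝ) ≤ 4 * u)]
      exact mul_le_mul (by linarith) hw (abs_nonneg _) (by linarith)
    have h7 : |(v : ℝ) ^ 2| ≤ t * t := by
      rw [abs_pow, pow_two]
      exact mul_le_mul hv hv (abs_nonneg _) (by linarith)
    calc |4 * (u : ℝ) * w - v ^ 2| ≤ |4 * (u : ℝ) * w| + |(v : ℝ) ^ 2| := abs_sub _ _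
      _ ≤ 5 * (t * t) := by linarith
      _ ≤ t * (t * t) := mul_le_mul_of_nonneg_right hn (by positivity)
      _ = t ^ 3 := by ring

/-- thresholds inside `V c1` -/
theorem part4 (g : ℕ → ℝ) (hg : ∀ᶠ N in atTop, 0 < g N ∧ g N ≤ Z c1 N) (A : Set ℕ)
    (hA : A ⊆ V c1)
    (h : ∃ C : ℝ, 0 < C ∧ ∃ᶠ N : ℕ in atTop,
      Real.sqrt N / g N ≤ C * ((A ∩ Set.Icc 1 N).ncard : ℝ)) : Unbdd A := by
  intro K
  obtain ⟨C, hC, hf⟩ := h
  obtain ⟨N, hN, hgN, hz, hz2, h2⟩ := (hf.and_eventually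
    (hg.and (((Z_tendsto c1_pos).eventually_ge_atTop (K : ℝ)).and
      (((Z_tendsto c1_pos).eventually_ge_atTop C).and part2)))).exists
  obtain ⟨m, _, hm⟩ := h2 A (by
    rw [Set.inter_eq_left.2 hA]
    have hz0 := Z_pos c1 N
    rw [div_le_iff₀ hgN.1] at hN
    rw [div_le_iff₀ (by positivity)]
    refine hN.trans ?_
    have hc0 : (0 : ℝ) ≤ ((A ∩ Set.Icc 1 N).ncard : ℝ) := Nat.cast_nonneg _
    have h5 : C * g N ≤ Z c1 N ^ 2 := by
      rw [pow_two]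
      exact mul_le_mul hz2 hgN.2 hgN.1.le hz0.le
    calc C * ((A ∩ Set.Icc 1 N).ncard : ℝ) * g N = ((A ∩ Set.Icc 1 N).ncard : ℝ) * (C * g N) := by ring
      _ ≤ _ := mul_le_mul_of_nonneg_left h5 hc0)
  refine ⟨m, ?_⟩
  have : (K : ℝ) ≤ rep A m := hz.trans hm
  exact_mod_cast this

/-- reduction to the sets outside `V c1` -/
theorem part5 (g : ℕ → ℝ) (hg : ∀ᶠ N in atTop, 0 < g N ∧ g N ≤ Z c1 N) :
    Forces g ↔ ∀ A : Set ℕ, Disjoint A (V c1) → Dense A g → Unbdd A := by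
  constructor
  · intro h A _ hA
    exact h A hA
  · intro h A hA
    by_contra hcon
    unfold Unbdd at hcon
    push Not at hcon
    obtain ⟨K, hK⟩ := hcon
    obtain ⟨C, hC, hd⟩ := hA
    have hsub : A \ V c1 ⊆ A := Set.sdiff_subset
    have h1 : Unbdd (A \ V c1) := by
      apply h _ Set.disjoint_sdiff_left
      refine ⟨2 * C, by positivity, ?_⟩
      filter_upwards [hd, hg, (Z_tendsto c1_pos).eventually_ge_atTop (K : ℝ),
        (Z_tendsto c1_pos).eventually_ge_atTop (2 * C), part2] with N hN hgN hzK hzC h2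
      have h3 : ((A ∩ V c1 ∩ Set.Icc 1 N).ncard : ℝ) < Real.sqrt N / Z c1 N ^ 2 := by
        by_contra hc
        push Not at hc
        obtain ⟨m, _, hm⟩ := h2 A hc
        have h4 : (K : ℝ) ≤ rep A m := hzK.trans hm
        have h5 : K ≤ rep A m := by exact_mod_cast h4
        exact absurd (hK m) (by omega)
      have h4 : (A ∩ Set.Icc 1 N).ncard ≤
          ((A \ V c1) ∩ Set.Icc 1 N).ncard + (A ∩ V c1 ∩ Set.Icc 1 N).ncard := by
        refine le_trans (Set.ncard_le_ncard ?_ ?_) (Set.ncard_union_le _ _)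
        · rintro n ⟨h5, h6⟩
          by_cases h7 : n ∈ V c1
          · exact Or.inr ⟨⟨h5, h7⟩, h6⟩
          · exact Or.inl ⟨⟨h5, h7⟩, h6⟩
        · exact ((Set.finite_Icc 1 N).subset Set.inter_subset_right).union
            ((Set.finite_Icc 1 N).subset Set.inter_subset_right)
      have h4R : ((A ∩ Set.Icc 1 N).ncard : ℝ) ≤
          (((A \ V c1) ∩ Set.Icc 1 N).ncard : ℝ) + ((A ∩ V c1 ∩ Set.Icc 1 N).ncard : ℝ) := by
        exact_mod_cast h4
      have hz0 := Z_pos c1 N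
      have h5 : Real.sqrt N / Z c1 N ^ 2 * (2 * C) ≤ Real.sqrt N / g N := by
        rw [div_mul_eq_mul_div, div_le_div_iff₀ (by positivity) hgN.1]
        have h6 : 2 * C * g N ≤ Z c1 N ^ 2 := by
          rw [pow_two]
          exact mul_le_mul hzC hgN.2 hgN.1.le hz0.le
        calc Real.sqrt N * (2 * C) * g N = Real.sqrt N * (2 * C * g N) := by ring
          _ ≤ _ := mul_le_mul_of_nonneg_left h6 (Real.sqrt_nonneg _)
      have h6 : C * ((A ∩ V c1 ∩ Set.Icc 1 N).ncard : ℝ) ≤ C * (Real.sqrt N / Z c1 N ^ 2) :=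
        mul_le_mul_of_nonneg_left h3.le hC.le
      have h7 : C * ((A ∩ Set.Icc 1 N).ncard : ℝ) ≤
          C * ((((A \ V c1) ∩ Set.Icc 1 N).ncard : ℝ) + ((A ∩ V c1 ∩ Set.Icc 1 N).ncard : ℝ)) :=
        mul_le_mul_of_nonneg_left h4R hC.le
      nlinarith
    obtain ⟨n, hn⟩ := h1 K
    have h2 := rep_mono hsub n
    have h3 := hK n
    omega

/-- the existence of a threshold tending to infinity is decided outside `V c1` -/
theorem part6 : (∃ g : ℕ → ℝ, Tendsto g atTop atTop ∧ Forces g) ↔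
    ∃ g : ℕ → ℝ, Tendsto g atTop atTop ∧
      ∀ A : Set ℕ, Disjoint A (V c1) → Dense A g → Unbdd A := by
  constructor
  · rintro ⟨g, hg, h⟩
    exact ⟨g, hg, fun A _ hA => h A hA⟩
  · rintro ⟨g, hg, h⟩
    refine ⟨fun N => min (g N) (Z c1 N), ?_, ?_⟩
    · rw [tendsto_atTop]
      intro b
      filter_upwards [hg.eventually_ge_atTop b, (Z_tendsto c1_pos).eventually_ge_atTop b] with N h1 h2
      exact le_min h1 h2
    · have hpos : ∀ᶠ N in atTop, 0 < min (g N) (Z c1 N) ∧ min (g N) (Z c1 N) ≤ Z c1 N := by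
        filter_upwards [hg.eventually_gt_atTop 0] with N hN
        exact ⟨lt_min hN (Z_pos _ _), min_le_right _ _⟩
      rw [part5 _ hpos]
      intro A hA hd
      apply h A hA
      obtain ⟨C, hC, hC2⟩ := hd
      refine ⟨C, hC, ?_⟩
      filter_upwards [hC2, hpos] with N hN hp
      refine le_trans ?_ hN
      exact div_le_div_of_nonneg_left (Real.sqrt_nonneg _) hp.1 (min_le_left _ _)

end Pool.Agent.P8H42.NS
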